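import Pool.Agent.Lib_helper79.TriRamsey.Count

set_option autoImplicit false

open Finset Classical

namespace Pool.Agent.TriRamsey

/-- Uniform version of the counting lemma `Setup.exists_embedding`: one weight `w` and one lower
bound `p` for the sizes of all the sets of allowed places. -/
theorem clone_lemma {V W : Type*} [Fintype V] [Fintype W] (H : SimpleGraph V)
    (hH : ∀ x y z, H.Adj x y → H.Adj x z → ¬ H.Adj y z) (G : SimpleGraph W) (P : W → Finset V)
    (Δ s : ℕ) (w M ρ p : ℝ) (hw : 0 ≤ w) (hM : 0 < M) (hρ : 0 ≤ ρ)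
    (hdegG : ∀ v, (univ.filter (fun u => G.Adj v u)).card ≤ Δ)
    (hdegH : ∀ x, (univ.filter (fun y => H.Adj x y)).card ≤ s)
    (hws : w * s ≤ 1 / 8) (hwΔ : 2 * Δ * w ≤ 1 / 8)
    (hp : ∀ v, p ≤ ((P v).card : ℝ))
    (hload : 2 * Δ * s ≤ ρ * p)
    (hused : 2 * (Fintype.card W : ℝ) ≤ 1 / 4 * Real.exp (-(2 * ρ)) * p)
    (h6 : M ≤ w * (1 / 2 * Real.exp (-(2 * ρ)) * p))
    (h7 : 6 * (Δ : ℝ) ≤ M ^ 2) :
    ∃ φ : W → V, Function.Injective φ ∧ (∀ v, φ v ∈ P v) ∧
      ∀ u v, G.Adj u v → ¬ H.Adj (φ u) (φ v) := by
  let D : Setup W V := ⟨G, H, P, fun _ => w⟩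
  have hdeg' : ∀ (A : Finset V) (x : V), ((A.filter (H.Adj x)).card : ℝ) ≤ s := by
    intro A x
    have h1 : (A.filter (H.Adj x)).card ≤ (univ.filter (fun y => H.Adj x y)).card :=
      Finset.card_le_card (Finset.filter_subset_filter _ (Finset.subset_univ _))
    exact_mod_cast le_trans h1 (hdegH x)
  have hyp : D.Hyp Δ M ρ :=
    { lam_nonneg := fun _ => hw
      M_pos := hM
      rho_nonneg := hρ
      tri := hH
      deg := fun v => by exact_mod_cast hdegG v
      h2 := by
        intro v u x _ _
        exact le_trans (mul_le_mul_of_nonneg_left (hdeg' (P u) x) hw) hws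
      h3 := by
        intro v y
        change ∑ u ∈ univ.filter (fun u => G.Adj v u ∧ y ∈ P u), 2 * w ≤ 1 / 8
        rw [Finset.sum_const, nsmul_eq_mul]
        have h1 : ((univ.filter (fun u => G.Adj v u ∧ y ∈ P u)).card : ℝ) ≤ Δ := by
          have h2 : (univ.filter (fun u => G.Adj v u ∧ y ∈ P u)).card ≤
              (univ.filter (fun u => G.Adj v u)).card := by
            apply Finset.card_le_card
            intro u hu
            rw [Finset.mem_filter] at hu ⊢
            exact ⟨hu.1, hu.2.1⟩
          exact_mod_cast le_trans h2 (hdegG v)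
        nlinarith
      h4 := by
        intro v u y _ _
        have h1 := hdeg' (P v) y
        have h2 := hp v
        have hΔ : (0 : ℝ) ≤ Δ := Nat.cast_nonneg _
        calc 2 * (Δ : ℝ) * (((P v).filter (H.Adj y)).card : ℝ) ≤ 2 * Δ * s := by
              apply mul_le_mul_of_nonneg_left h1 (by positivity)
          _ ≤ ρ * p := hload
          _ ≤ ρ * (P v).card := mul_le_mul_of_nonneg_left h2 hρ
      h5 := by
        intro v
        have h1 : ((univ.filter (fun τ : W × Bool => ¬ Disjoint (P τ.1) (P v))).card : ℝ) ≤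
            2 * (Fintype.card W : ℝ) := by
          have h2 : (univ.filter (fun τ : W × Bool => ¬ Disjoint (P τ.1) (P v))).card ≤
              Fintype.card (W × Bool) := by
            rw [← Finset.card_univ]
            exact Finset.card_le_card (Finset.filter_subset _ _)
          rw [Fintype.card_prod, Fintype.card_bool] at h2
          have h3 : ((univ.filter (fun τ : W × Bool => ¬ Disjoint (P τ.1) (P v))).card : ℝ) ≤
              ((Fintype.card W * 2 : ℕ) : ℝ) := by exact_mod_cast h2
          push_cast at h3
          linarith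
        refine le_trans h1 (le_trans hused ?_)
        exact mul_le_mul_of_nonneg_left (hp v) (by positivity)
      h6 := by
        intro v
        refine le_trans h6 ?_
        apply mul_le_mul_of_nonneg_left _ hw
        exact mul_le_mul_of_nonneg_left (hp v) (by positivity)
      h7 := h7 }
  exact Setup.exists_embedding hyp

end Pool.Agent.TriRamsey
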