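import Mathlib

set_option autoImplicit false
set_option linter.unusedSectionVars false

open Finset Classical

namespace Pool.Agent.TriRamsey

/-- Data for an embedding problem: the graph `G` is to be embedded in the complement of `H`,
the vertex `w` going to a position in `P w`; `lam w` is the weight of a placed copy of `w`. -/
structure Setup (W V : Type*) where
  G : SimpleGraph W
  H : SimpleGraph V
  P : W → Finset V
  lam : W → ℝ

variable {W V : Type*} [Fintype W] [Fintype V]

namespace Setup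

variable (D : Setup W V)

/-- weight of a state of a clone -/
noncomputable def wo (τ : W × Bool) : Option V → ℝ
  | none => 1
  | some _ => D.lam τ.1

/-- weight of a configuration -/
noncomputable def wt (f : W × Bool → Option V) : ℝ := ∏ τ, D.wo τ (f τ)

/-- valid partial placements of the clones in `S` -/
structure Valid (S : Finset (W × Bool)) (f : W × Bool → Option V) : Prop where
  supp : ∀ τ, τ ∉ S → f τ = none
  mem : ∀ τ x, f τ = some x → x ∈ D.P τ.1
  inj : ∀ τ τ' x, f τ = some x → f τ' = some x → τ = τ'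
  comp : ∀ τ τ' x y, f τ = some x → f τ' = some y → D.G.Adj τ.1 τ'.1 → ¬ D.H.Adj x y

/-- good placements: no vertex has both clones in `S` unplaced -/
structure Good (S : Finset (W × Bool)) (f : W × Bool → Option V) : Prop where
  valid : D.Valid S f
  full : ∀ w, (w, false) ∈ S → (w, true) ∈ S → ¬ (f (w, false) = none ∧ f (w, true) = none)

/-- the finite set of good placements -/
noncomputable def good (S : Finset (W × Bool)) : Finset (W × Bool → Option V) :=
  univ.filter (fun f => D.Good S f)

/-- partition function -/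
noncomputable def Z (S : Finset (W × Bool)) : ℝ := ∑ f ∈ D.good S, D.wt f

variable {D}

lemma mem_good {S : Finset (W × Bool)} {f : W × Bool → Option V} :
    f ∈ D.good S ↔ D.Good S f := by
  simp [good]

lemma wo_nonneg (hl : ∀ w, 0 ≤ D.lam w) (τ : W × Bool) (o : Option V) : 0 ≤ D.wo τ o := by
  cases o with
  | none => simp [wo]
  | some x => simpa [wo] using hl τ.1

lemma wt_nonneg (hl : ∀ w, 0 ≤ D.lam w) (f : W × Bool → Option V) : 0 ≤ D.wt f :=
  Finset.prod_nonneg (fun τ _ => wo_nonneg hl τ (f τ))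

lemma Z_nonneg (hl : ∀ w, 0 ≤ D.lam w) (S : Finset (W × Bool)) : 0 ≤ D.Z S :=
  Finset.sum_nonneg (fun f _ => wt_nonneg hl f)

/-- changing the state of one clone from unplaced -/
lemma wt_update (g : W × Bool → Option V) (τ : W × Bool) (hg : g τ = none) (o : Option V) :
    D.wt (Function.update g τ o) = D.wo τ o * D.wt g := by
  unfold wt
  rw [← Finset.mul_prod_erase univ _ (Finset.mem_univ τ),
    ← Finset.mul_prod_erase univ (fun τ => D.wo τ (g τ)) (Finset.mem_univ τ)]
  have h1 : ∏ x ∈ univ.erase τ, D.wo x (Function.update g τ o x) =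
      ∏ x ∈ univ.erase τ, D.wo x (g x) := by
    apply Finset.prod_congr rfl
    intro x hx
    rw [Function.update_of_ne (Finset.ne_of_mem_erase hx)]
  rw [h1]
  simp [hg, wo]

/-- Erasing one clone: the sum over a family in which the clone `τ` is unplaced or at a place
of `O` is at most `1 + lam * |O|` times the sum over the erased family. -/
lemma erase_bound (hl : ∀ w, 0 ≤ D.lam w) (A B : Finset (W × Bool → Option V)) (τ : W × Bool)
    (O : Finset V) (h1 : ∀ f ∈ A, f τ = none ∨ ∃ y ∈ O, f τ = some y)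
    (h2 : ∀ f ∈ A, Function.update f τ none ∈ B) :
    ∑ f ∈ A, D.wt f ≤ (1 + D.lam τ.1 * O.card) * ∑ g ∈ B, D.wt g := by
  have e1 : ∑ f ∈ A, D.wt f = ∑ g ∈ B, ∑ f ∈ A.filter (fun f => Function.update f τ none = g), D.wt f := by
    rw [Finset.sum_fiberwise_of_maps_to h2]
  rw [e1, Finset.mul_sum]
  apply Finset.sum_le_sum
  intro g _
  by_cases hgn : g τ = none
  · have h3 : A.filter (fun f => Function.update f τ none = g) ⊆
        (insertNone O).image (fun o => Function.update g τ o) := by
      intro f hf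
      rw [Finset.mem_filter] at hf
      rw [Finset.mem_image]
      refine ⟨f τ, ?_, ?_⟩
      · rcases h1 f hf.1 with h | ⟨y, hy, h⟩
        · rw [h]; simp
        · rw [h]; simpa using hy
      · rw [← hf.2]
        simp
    calc ∑ f ∈ A.filter (fun f => Function.update f τ none = g), D.wt f
        ≤ ∑ f ∈ (insertNone O).image (fun o => Function.update g τ o), D.wt f :=
          Finset.sum_le_sum_of_subset_of_nonneg h3 (fun f _ _ => wt_nonneg hl f)
      _ ≤ ∑ o ∈ insertNone O, D.wt (Function.update g τ o) := by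
          apply le_of_eq
          rw [Finset.sum_image]
          intro o _ o' _ h
          have := congrFun h τ
          simpa using this
      _ = ∑ o ∈ insertNone O, D.wo τ o * D.wt g := by
          apply Finset.sum_congr rfl
          intro o _
          exact wt_update g τ hgn o
      _ = (1 + D.lam τ.1 * O.card) * D.wt g := by
          rw [← Finset.sum_mul, Finset.sum_insertNone]
          simp only [wo, Finset.sum_const, nsmul_eq_mul]
          ring
  · have h3 : A.filter (fun f => Function.update f τ none = g) = ∅ := by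
      apply Finset.filter_eq_empty_iff.mpr
      intro f _ h
      apply hgn
      rw [← h]
      simp
    rw [h3, Finset.sum_empty]
    apply mul_nonneg
    · have := hl τ.1
      positivity
    · exact wt_nonneg hl g

/-- placed version -/
lemma placed_bound (hl : ∀ w, 0 ≤ D.lam w) (A B : Finset (W × Bool → Option V)) (τ : W × Bool)
    (y : V) (h1 : ∀ f ∈ A, f τ = some y)
    (h2 : ∀ f ∈ A, Function.update f τ none ∈ B) :
    ∑ f ∈ A, D.wt f ≤ D.lam τ.1 * ∑ g ∈ B, D.wt g := by
  have hinj : Set.InjOn (fun f : W × Bool → Option V => Function.update f τ none) (A : Set _) := by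
    intro f hf f' hf' h
    funext σ
    by_cases hσ : σ = τ
    · rw [hσ, h1 f hf, h1 f' hf']
    · have := congrFun h σ
      simpa [Function.update_of_ne hσ] using this
  calc ∑ f ∈ A, D.wt f = ∑ f ∈ A, D.lam τ.1 * D.wt (Function.update f τ none) := by
        apply Finset.sum_congr rfl
        intro f hf
        have h3 : f = Function.update (Function.update f τ none) τ (some y) := by
          rw [Function.update_idem]
          rw [← h1 f hf]
          simp
        conv_lhs => rw [h3]
        rw [wt_update _ τ (by simp)]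
        rfl
    _ = D.lam τ.1 * ∑ g ∈ A.image (fun f => Function.update f τ none), D.wt g := by
        rw [Finset.sum_image hinj, Finset.mul_sum]
    _ ≤ D.lam τ.1 * ∑ g ∈ B, D.wt g := by
        apply mul_le_mul_of_nonneg_left _ (hl τ.1)
        apply Finset.sum_le_sum_of_subset_of_nonneg
        · intro g hg
          rw [Finset.mem_image] at hg
          obtain ⟨f, hf, rfl⟩ := hg
          exact h2 f hf
        · intro f _ _
          exact wt_nonneg hl f

/-- clones of neighbours of `v` placed at neighbours of `x` -/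
noncomputable def T (D : Setup W V) (v : W) (x : V) (f : W × Bool → Option V) :
    Finset (W × Bool) :=
  univ.filter (fun τ => D.G.Adj v τ.1 ∧ ∃ y, f τ = some y ∧ D.H.Adj x y)

/-- erase these clones -/
noncomputable def E (D : Setup W V) (v : W) (x : V) (f : W × Bool → Option V) :
    W × Bool → Option V :=
  fun τ => if τ ∈ D.T v x f then none else f τ

lemma mem_T {v : W} {x : V} {f : W × Bool → Option V} {τ : W × Bool} :
    τ ∈ D.T v x f ↔ D.G.Adj v τ.1 ∧ ∃ y, f τ = some y ∧ D.H.Adj x y := by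
  simp [T]

lemma E_of_mem {v : W} {x : V} {f : W × Bool → Option V} {τ : W × Bool} (h : τ ∈ D.T v x f) :
    D.E v x f τ = none := by
  simp [E, h]

lemma E_of_not_mem {v : W} {x : V} {f : W × Bool → Option V} {τ : W × Bool}
    (h : τ ∉ D.T v x f) : D.E v x f τ = f τ := by
  simp [E, h]

lemma E_eq_some {v : W} {x : V} {f : W × Bool → Option V} {τ : W × Bool} {y : V}
    (h : D.E v x f τ = some y) : f τ = some y := by
  by_cases hT : τ ∈ D.T v x f
  · rw [E_of_mem hT] at h
    exact absurd h (by simp)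
  · rwa [E_of_not_mem hT] at h

lemma T_E {v : W} {x : V} {f : W × Bool → Option V} : D.T v x (D.E v x f) = ∅ := by
  ext τ
  simp only [Finset.notMem_empty, iff_false]
  intro h
  rw [mem_T] at h
  obtain ⟨h1, y, h2, h3⟩ := h
  have h4 : τ ∈ D.T v x f := mem_T.mpr ⟨h1, y, E_eq_some h2, h3⟩
  rw [E_of_mem h4] at h2
  exact absurd h2 (by simp)

lemma Valid.sub {S : Finset (W × Bool)} {f g : W × Bool → Option V} (hf : D.Valid S f)
    (h : ∀ τ x, g τ = some x → f τ = some x) : D.Valid S g where
  supp τ hτ := by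
    by_contra hn
    obtain ⟨x, hx⟩ := Option.ne_none_iff_exists'.mp hn
    have := h τ x hx
    rw [hf.supp τ hτ] at this
    exact absurd this (by simp)
  mem τ x hx := hf.mem τ x (h τ x hx)
  inj τ τ' x h1 h2 := hf.inj τ τ' x (h τ x h1) (h τ' x h2)
  comp τ τ' x y h1 h2 h3 := hf.comp τ τ' x y (h τ x h1) (h τ' y h2) h3

lemma Valid.E {S : Finset (W × Bool)} {f : W × Bool → Option V} (hf : D.Valid S f)
    (v : W) (x : V) : D.Valid S (D.E v x f) :=
  hf.sub (fun _ _ h => E_eq_some h)

section Local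

variable (D) (S : Finset (W × Bool)) (v : W) (x : V) (ω : W × Bool → Option V)

/-- unplaced clones of neighbours of `v` -/
noncomputable def Bl : Finset (W × Bool) := S.filter (fun τ => D.G.Adj v τ.1 ∧ ω τ = none)

/-- the places in the neighbourhood of `x` available to the clone `τ` -/
noncomputable def Y (τ : W × Bool) : Finset V :=
  (D.P τ.1).filter (fun y => D.H.Adj x y ∧ (∀ τ', ω τ' ≠ some y) ∧
    ∀ τ' y', ω τ' = some y' → D.G.Adj τ.1 τ'.1 → ¬ D.H.Adj y y')

/-- the fibre -/
noncomputable def Fib : Finset (W × Bool → Option V) :=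
  (D.good S).filter (fun f => D.E v x f = ω)

variable {D S v x ω}

lemma mem_Bl {τ : W × Bool} : τ ∈ D.Bl S v ω ↔ τ ∈ S ∧ D.G.Adj v τ.1 ∧ ω τ = none := by
  simp [Bl]

lemma mem_Y {τ : W × Bool} {y : V} : y ∈ D.Y x ω τ ↔ y ∈ D.P τ.1 ∧ D.H.Adj x y ∧
    (∀ τ', ω τ' ≠ some y) ∧
    ∀ τ' y', ω τ' = some y' → D.G.Adj τ.1 τ'.1 → ¬ D.H.Adj y y' := by
  simp [Y]

lemma mem_Fib (hH : ∀ y z, D.H.Adj x y → D.H.Adj x z → ¬ D.H.Adj y z)
    (hω : D.Good S ω) (hT : D.T v x ω = ∅) {f : W × Bool → Option V} :
    f ∈ D.Fib S v x ω ↔ (∀ τ, τ ∉ D.Bl S v ω → f τ = ω τ) ∧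
      (∀ τ, τ ∈ D.Bl S v ω → f τ = none ∨ ∃ y ∈ D.Y x ω τ, f τ = some y) ∧
      (∀ τ τ' y, f τ = some y → f τ' = some y → τ = τ') := by
  constructor
  · intro hf
    rw [Fib, Finset.mem_filter, mem_good] at hf
    obtain ⟨hg, hE⟩ := hf
    refine ⟨?_, ?_, hg.valid.inj⟩
    · intro τ hτ
      by_cases hm : τ ∈ D.T v x f
      · exfalso
        apply hτ
        rw [mem_Bl]
        have h1 := mem_T.mp hm
        obtain ⟨ha, y, hy, _⟩ := h1
        refine ⟨?_, ha, ?_⟩
        · by_contra hS
          rw [hg.valid.supp τ hS] at hy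
          exact absurd hy (by simp)
        · rw [← hE, E_of_mem hm]
      · rw [← hE, E_of_not_mem hm]
    · intro τ hτ
      rw [mem_Bl] at hτ
      rcases h : f τ with _ | y
      · left; rfl
      · right
        refine ⟨y, ?_, rfl⟩
        have hm : τ ∈ D.T v x f := by
          by_contra hm
          have h1 := hτ.2.2
          rw [← hE, E_of_not_mem hm, h] at h1
          exact absurd h1 (by simp)
        obtain ⟨_, z, hz, hxz⟩ := mem_T.mp hm
        rw [h] at hz
        have hyz : y = z := by simpa using hz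
        subst hyz
        rw [mem_Y]
        refine ⟨hg.valid.mem τ y h, hxz, ?_, ?_⟩
        · intro τ' h'
          rw [← hE] at h'
          have h2 := E_eq_some h'
          have h3 := hg.valid.inj τ τ' y h h2
          subst h3
          rw [E_of_mem hm] at h'
          exact absurd h' (by simp)
        · intro τ' y' h' hadj
          rw [← hE] at h'
          exact hg.valid.comp τ τ' y y' h (E_eq_some h') hadj
  · rintro ⟨h1, h2, h3⟩
    rw [Fib, Finset.mem_filter, mem_good]
    have key : ∀ τ a, f τ = some a → (τ ∈ D.Bl S v ω ∧ a ∈ D.Y x ω τ) ∨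
        (τ ∉ D.Bl S v ω ∧ ω τ = some a) := by
      intro τ a ha
      by_cases hb : τ ∈ D.Bl S v ω
      · left
        refine ⟨hb, ?_⟩
        rcases h2 τ hb with h | ⟨y, hy, h⟩
        · rw [h] at ha; exact absurd ha (by simp)
        · rw [h] at ha
          have : y = a := by simpa using ha
          rwa [← this]
      · right
        refine ⟨hb, ?_⟩
        rw [← h1 τ hb, ha]
    refine ⟨⟨⟨?_, ?_, h3, ?_⟩, ?_⟩, ?_⟩
    · intro τ hτ
      have hb : τ ∉ D.Bl S v ω := fun hb => hτ (mem_Bl.mp hb).1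
      rw [h1 τ hb]
      exact hω.valid.supp τ hτ
    · intro τ a ha
      rcases key τ a ha with ⟨_, h⟩ | ⟨_, h⟩
      · exact (mem_Y.mp h).1
      · exact hω.valid.mem τ a h
    · intro τ τ' a b ha hb hadj
      rcases key τ a ha with ⟨_, h⟩ | ⟨_, h⟩
      · rcases key τ' b hb with ⟨_, h'⟩ | ⟨_, h'⟩
        · exact hH a b (mem_Y.mp h).2.1 (mem_Y.mp h').2.1
        · exact (mem_Y.mp h).2.2.2 τ' b h' hadj
      · rcases key τ' b hb with ⟨_, h'⟩ | ⟨_, h'⟩
        · intro hab
          exact (mem_Y.mp h').2.2.2 τ a h hadj.symm hab.symm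
        · exact hω.valid.comp τ τ' a b h h' hadj
    · intro w hw0 hw1 hn
      apply hω.full w hw0 hw1
      have aux : ∀ τ, f τ = none → ω τ = none := by
        intro τ hτ
        by_cases hb : τ ∈ D.Bl S v ω
        · exact (mem_Bl.mp hb).2.2
        · rw [← h1 τ hb, hτ]
      exact ⟨aux _ hn.1, aux _ hn.2⟩
    · funext τ
      by_cases hm : τ ∈ D.T v x f
      · rw [E_of_mem hm]
        obtain ⟨ha, y, hy, hxy⟩ := mem_T.mp hm
        rcases key τ y hy with ⟨h, _⟩ | ⟨_, h⟩
        · exact (mem_Bl.mp h).2.2.symm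
        · exfalso
          have : τ ∈ D.T v x ω := mem_T.mpr ⟨ha, y, h, hxy⟩
          rw [hT] at this
          exact absurd this (Finset.notMem_empty τ)
      · rw [E_of_not_mem hm]
        by_cases hb : τ ∈ D.Bl S v ω
        · rcases h2 τ hb with h | ⟨y, hy, h⟩
          · rw [h, (mem_Bl.mp hb).2.2]
          · exfalso
            apply hm
            exact mem_T.mpr ⟨(mem_Bl.mp hb).2.1, y, h, (mem_Y.mp hy).2.1⟩
        · exact h1 τ hb

lemma T_eq_of_mem_Fib (hH : ∀ y z, D.H.Adj x y → D.H.Adj x z → ¬ D.H.Adj y z)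
    (hω : D.Good S ω) (hT : D.T v x ω = ∅) {f : W × Bool → Option V}
    (hf : f ∈ D.Fib S v x ω) :
    D.T v x f = (D.Bl S v ω).filter (fun τ => f τ ≠ none) := by
  obtain ⟨h1, h2, _⟩ := (mem_Fib hH hω hT).mp hf
  ext τ
  rw [mem_T, Finset.mem_filter]
  constructor
  · rintro ⟨ha, y, hy, hxy⟩
    constructor
    · by_contra hb
      have h := h1 τ hb
      have : τ ∈ D.T v x ω := mem_T.mpr ⟨ha, y, by rw [← h, hy], hxy⟩
      rw [hT] at this
      exact absurd this (Finset.notMem_empty τ)
    · rw [hy]; simp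
  · rintro ⟨hb, hn⟩
    refine ⟨(mem_Bl.mp hb).2.1, ?_⟩
    rcases h2 τ hb with h | ⟨y, hy, h⟩
    · exact absurd h hn
    · exact ⟨y, h, (mem_Y.mp hy).2.1⟩

end Local

section Local2

variable {S : Finset (W × Bool)} {v : W} {x : V} {ω : W × Bool → Option V}

lemma fib_update_none (hH : ∀ y z, D.H.Adj x y → D.H.Adj x z → ¬ D.H.Adj y z)
    (hω : D.Good S ω) (hT : D.T v x ω = ∅) {f : W × Bool → Option V}
    (hf : f ∈ D.Fib S v x ω) {τ : W × Bool} (hτ : τ ∈ D.Bl S v ω) :
    Function.update f τ none ∈ D.Fib S v x ω := by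
  obtain ⟨h1, h2, h3⟩ := (mem_Fib hH hω hT).mp hf
  have aux : ∀ σ y, Function.update f τ none σ = some y → f σ = some y := by
    intro σ y h
    by_cases hσ : σ = τ
    · subst hσ
      simp at h
    · rwa [Function.update_of_ne hσ] at h
  refine (mem_Fib hH hω hT).mpr ⟨?_, ?_, ?_⟩
  · intro σ hσ
    have hne : σ ≠ τ := fun h => hσ (h ▸ hτ)
    rw [Function.update_of_ne hne]
    exact h1 σ hσ
  · intro σ hσ
    by_cases hne : σ = τ
    · subst hne
      left; simp
    · rw [Function.update_of_ne hne]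
      exact h2 σ hσ
  · intro σ σ' y h h'
    exact h3 σ σ' y (aux _ _ h) (aux _ _ h')

lemma fib_update_some (hH : ∀ y z, D.H.Adj x y → D.H.Adj x z → ¬ D.H.Adj y z)
    (hω : D.Good S ω) (hT : D.T v x ω = ∅) {f : W × Bool → Option V}
    (hf : f ∈ D.Fib S v x ω) {τ : W × Bool} (hτ : τ ∈ D.Bl S v ω) {y : V}
    (hy : y ∈ D.Y x ω τ) (hu : ∀ σ, f σ ≠ some y) :
    Function.update f τ (some y) ∈ D.Fib S v x ω := by
  obtain ⟨h1, h2, h3⟩ := (mem_Fib hH hω hT).mp hf
  refine (mem_Fib hH hω hT).mpr ⟨?_, ?_, ?_⟩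
  · intro σ hσ
    have hne : σ ≠ τ := fun h => hσ (h ▸ hτ)
    rw [Function.update_of_ne hne]
    exact h1 σ hσ
  · intro σ hσ
    by_cases hne : σ = τ
    · subst hne
      right
      exact ⟨y, hy, by simp⟩
    · rw [Function.update_of_ne hne]
      exact h2 σ hσ
  · intro σ σ' z h h'
    by_cases hne : σ = τ
    · by_cases hne' : σ' = τ
      · rw [hne, hne']
      · exfalso
        subst hne
        rw [Function.update_self] at h
        rw [Function.update_of_ne hne'] at h'
        have : y = z := by simpa using h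
        subst this
        exact hu σ' h'
    · by_cases hne' : σ' = τ
      · exfalso
        subst hne'
        rw [Function.update_self] at h'
        rw [Function.update_of_ne hne] at h
        have : y = z := by simpa using h'
        subst this
        exact hu σ h
      · rw [Function.update_of_ne hne] at h
        rw [Function.update_of_ne hne'] at h'
        exact h3 σ σ' z h h'

/-- expected number of placements -/
noncomputable def Lam (D : Setup W V) (S : Finset (W × Bool)) (v : W) (x : V)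
    (ω : W × Bool → Option V) : ℝ :=
  ∑ τ ∈ D.Bl S v ω, D.lam τ.1 * ((D.Y x ω τ).card : ℝ)

lemma fib_sum_le (hl : ∀ w, 0 ≤ D.lam w)
    (hH : ∀ y z, D.H.Adj x y → D.H.Adj x z → ¬ D.H.Adj y z)
    (hω : D.Good S ω) (hT : D.T v x ω = ∅) :
    ∑ f ∈ D.Fib S v x ω, D.wt f ≤ Real.exp (D.Lam S v x ω) * D.wt ω := by
  let t : W × Bool → Finset (Option V) := fun τ =>
    if τ ∈ D.Bl S v ω then insertNone (D.Y x ω τ) else {ω τ}
  have hsub : D.Fib S v x ω ⊆ Fintype.piFinset t := by
    intro f hf
    obtain ⟨h1, h2, _⟩ := (mem_Fib hH hω hT).mp hf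
    rw [Fintype.mem_piFinset]
    intro τ
    by_cases hb : τ ∈ D.Bl S v ω
    · simp only [t, if_pos hb]
      rcases h2 τ hb with h | ⟨y, hy, h⟩
      · rw [h]; simp
      · rw [h]; simpa using hy
    · simp only [t, if_neg hb, Finset.mem_singleton]
      exact h1 τ hb
  calc ∑ f ∈ D.Fib S v x ω, D.wt f ≤ ∑ f ∈ Fintype.piFinset t, D.wt f :=
        Finset.sum_le_sum_of_subset_of_nonneg hsub (fun f _ _ => wt_nonneg hl f)
    _ = ∏ τ, ∑ o ∈ t τ, D.wo τ o := by
        rw [Finset.prod_univ_sum]
        rfl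
    _ = ∏ τ, (D.wo τ (ω τ) * (if τ ∈ D.Bl S v ω then
          (1 + D.lam τ.1 * ((D.Y x ω τ).card : ℝ)) else 1)) := by
        apply Finset.prod_congr rfl
        intro τ _
        by_cases hb : τ ∈ D.Bl S v ω
        · simp only [t, if_pos hb]
          rw [Finset.sum_insertNone, (mem_Bl.mp hb).2.2]
          simp only [wo, Finset.sum_const, nsmul_eq_mul]
          ring
        · simp only [t, if_neg hb, Finset.sum_singleton, mul_one]
    _ = D.wt ω * ∏ τ ∈ D.Bl S v ω, (1 + D.lam τ.1 * ((D.Y x ω τ).card : ℝ)) := by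
        rw [Finset.prod_mul_distrib]
        congr 1
        rw [Finset.prod_ite_mem, Finset.univ_inter]
    _ ≤ D.wt ω * Real.exp (D.Lam S v x ω) := by
        apply mul_le_mul_of_nonneg_left _ (wt_nonneg hl ω)
        rw [Lam, Real.exp_sum]
        apply Finset.prod_le_prod
        · intro τ _
          have := hl τ.1
          positivity
        · intro τ _
          rw [add_comm]
          exact Real.add_one_le_exp _
    _ = Real.exp (D.Lam S v x ω) * D.wt ω := mul_comm _ _

/-- one placed clone costs at most `lam` -/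
lemma fib_placed_le (hl : ∀ w, 0 ≤ D.lam w)
    (hH : ∀ y z, D.H.Adj x y → D.H.Adj x z → ¬ D.H.Adj y z)
    (hω : D.Good S ω) (hT : D.T v x ω = ∅) {τ : W × Bool} (hτ : τ ∈ D.Bl S v ω) (y : V) :
    ∑ f ∈ (D.Fib S v x ω).filter (fun f => f τ = some y), D.wt f ≤
      D.lam τ.1 * ∑ f ∈ D.Fib S v x ω, D.wt f := by
  apply placed_bound hl _ _ τ y
  · intro f hf
    exact (Finset.mem_filter.mp hf).2
  · intro f hf
    exact fib_update_none hH hω hT (Finset.mem_filter.mp hf).1 hτ

lemma fib_placed_ge (hl : ∀ w, 0 ≤ D.lam w)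
    (hH : ∀ y z, D.H.Adj x y → D.H.Adj x z → ¬ D.H.Adj y z)
    (h2 : ∀ w, D.G.Adj v w → D.lam w * (((D.P w).filter (D.H.Adj x)).card : ℝ) ≤ 1 / 8)
    (h3 : ∀ y, ∑ w ∈ univ.filter (fun w => D.G.Adj v w ∧ y ∈ D.P w), 2 * D.lam w ≤ 1 / 8)
    (hω : D.Good S ω) (hT : D.T v x ω = ∅) {τ : W × Bool} (hτ : τ ∈ D.Bl S v ω) {y : V}
    (hy : y ∈ D.Y x ω τ) :
    D.lam τ.1 * (3 / 4 * ∑ f ∈ D.Fib S v x ω, D.wt f) ≤
    ∑ f ∈ (D.Fib S v x ω).filter (fun f => f τ = some y), D.wt f := by
  set Q := ∑ f ∈ D.Fib S v x ω, D.wt f with hQ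
  have hQ0 : 0 ≤ Q := Finset.sum_nonneg (fun f _ => wt_nonneg hl f)
  let A := (D.Fib S v x ω).filter (fun f => f τ = none ∧ ∀ σ, f σ ≠ some y)
  let B1 := (D.Fib S v x ω).filter (fun f => f τ ≠ none)
  let B2 := (D.Fib S v x ω).filter (fun f => ∃ σ, f σ = some y)
  have hB1 : ∑ f ∈ B1, D.wt f ≤ 1 / 8 * Q := by
    have hsub : B1 ⊆ (D.Y x ω τ).biUnion
        (fun y' => (D.Fib S v x ω).filter (fun f => f τ = some y')) := by
      intro f hf
      rw [Finset.mem_filter] at hf
      obtain ⟨_, h2', _⟩ := (mem_Fib hH hω hT).mp hf.1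
      rcases h2' τ hτ with h | ⟨y', hy', h⟩
      · exact absurd h hf.2
      · rw [Finset.mem_biUnion]
        exact ⟨y', hy', Finset.mem_filter.mpr ⟨hf.1, h⟩⟩
    calc ∑ f ∈ B1, D.wt f
        ≤ ∑ f ∈ (D.Y x ω τ).biUnion
            (fun y' => (D.Fib S v x ω).filter (fun f => f τ = some y')), D.wt f :=
          Finset.sum_le_sum_of_subset_of_nonneg hsub (fun f _ _ => wt_nonneg hl f)
      _ ≤ ∑ y' ∈ D.Y x ω τ, ∑ f ∈ (D.Fib S v x ω).filter (fun f => f τ = some y'), D.wt f := by
          apply le_of_eq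
          apply Finset.sum_biUnion
          intro a _ b _ hab
          rw [Function.onFun, Finset.disjoint_left]
          intro f hf hf'
          rw [Finset.mem_filter] at hf hf'
          apply hab
          have := hf.2.symm.trans hf'.2
          simpa using this
      _ ≤ ∑ y' ∈ D.Y x ω τ, D.lam τ.1 * Q :=
          Finset.sum_le_sum (fun y' _ => fib_placed_le hl hH hω hT hτ y')
      _ = (D.lam τ.1 * ((D.Y x ω τ).card : ℝ)) * Q := by
          rw [Finset.sum_const, nsmul_eq_mul]; ring
      _ ≤ 1 / 8 * Q := by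
          apply mul_le_mul_of_nonneg_right _ hQ0
          refine le_trans ?_ (h2 τ.1 (mem_Bl.mp hτ).2.1)
          apply mul_le_mul_of_nonneg_left _ (hl τ.1)
          exact_mod_cast Finset.card_le_card (by
            intro z hz
            rw [mem_Y] at hz
            rw [Finset.mem_filter]
            exact ⟨hz.1, hz.2.1⟩)
  have hB2 : ∑ f ∈ B2, D.wt f ≤ 1 / 8 * Q := by
    let C := (univ : Finset (W × Bool)).filter (fun σ => σ ∈ D.Bl S v ω ∧ y ∈ D.P σ.1)
    have hsub : B2 ⊆ C.biUnion
        (fun σ => (D.Fib S v x ω).filter (fun f => f σ = some y)) := by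
      intro f hf
      rw [Finset.mem_filter] at hf
      obtain ⟨hfF, σ, hσ⟩ := hf
      obtain ⟨h1', h2', _⟩ := (mem_Fib hH hω hT).mp hfF
      have hb : σ ∈ D.Bl S v ω := by
        by_contra hb
        rw [h1' σ hb] at hσ
        exact (mem_Y.mp hy).2.2.1 σ hσ
      rw [Finset.mem_biUnion]
      refine ⟨σ, ?_, Finset.mem_filter.mpr ⟨hfF, hσ⟩⟩
      rw [Finset.mem_filter]
      refine ⟨Finset.mem_univ _, hb, ?_⟩
      rcases h2' σ hb with h | ⟨y', hy', h⟩
      · rw [h] at hσ; exact absurd hσ (by simp)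
      · rw [h] at hσ
        have : y' = y := by simpa using hσ
        rw [← this]
        exact (mem_Y.mp hy').1
    calc ∑ f ∈ B2, D.wt f
        ≤ ∑ f ∈ C.biUnion
            (fun σ => (D.Fib S v x ω).filter (fun f => f σ = some y)), D.wt f :=
          Finset.sum_le_sum_of_subset_of_nonneg hsub (fun f _ _ => wt_nonneg hl f)
      _ ≤ ∑ σ ∈ C, ∑ f ∈ (D.Fib S v x ω).filter (fun f => f σ = some y), D.wt f := by
          apply le_of_eq
          apply Finset.sum_biUnion
          intro a _ b _ hab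
          rw [Function.onFun, Finset.disjoint_left]
          intro f hf hf'
          rw [Finset.mem_filter] at hf hf'
          apply hab
          obtain ⟨_, _, h3'⟩ := (mem_Fib hH hω hT).mp hf.1
          exact h3' a b y hf.2 hf'.2
      _ ≤ ∑ σ ∈ C, D.lam σ.1 * Q := by
          apply Finset.sum_le_sum
          intro σ hσ
          exact fib_placed_le hl hH hω hT (Finset.mem_filter.mp hσ).2.1 y
      _ = (∑ σ ∈ C, D.lam σ.1) * Q := by rw [Finset.sum_mul]
      _ ≤ 1 / 8 * Q := by
          apply mul_le_mul_of_nonneg_right _ hQ0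
          refine le_trans ?_ (h3 y)
          calc ∑ σ ∈ C, D.lam σ.1
              ≤ ∑ σ ∈ (univ.filter
                  (fun w => D.G.Adj v w ∧ y ∈ D.P w)) ×ˢ (univ : Finset Bool), D.lam σ.1 := by
                apply Finset.sum_le_sum_of_subset_of_nonneg
                · intro σ hσ
                  rw [Finset.mem_filter] at hσ
                  rw [Finset.mem_product, Finset.mem_filter]
                  exact ⟨⟨Finset.mem_univ _, (mem_Bl.mp hσ.2.1).2.1, hσ.2.2⟩, Finset.mem_univ _⟩
                · intro σ _ _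
                  exact hl σ.1
            _ = ∑ w ∈ univ.filter (fun w => D.G.Adj v w ∧ y ∈ D.P w), 2 * D.lam w := by
                rw [Finset.sum_product]
                apply Finset.sum_congr rfl
                intro w _
                simp [two_mul]
  have hA : 3 / 4 * Q ≤ ∑ f ∈ A, D.wt f := by
    have hsplit : D.Fib S v x ω ⊆ A ∪ (B1 ∪ B2) := by
      intro f hf
      rw [Finset.mem_union, Finset.mem_union, Finset.mem_filter, Finset.mem_filter,
        Finset.mem_filter]
      by_cases hn : f τ = none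
      · by_cases hs : ∃ σ, f σ = some y
        · right; right; exact ⟨hf, hs⟩
        · left
          push Not at hs
          exact ⟨hf, hn, hs⟩
      · right; left; exact ⟨hf, hn⟩
    have h4 : Q ≤ ∑ f ∈ A, D.wt f + (∑ f ∈ B1, D.wt f + ∑ f ∈ B2, D.wt f) := by
      calc Q ≤ ∑ f ∈ A ∪ (B1 ∪ B2), D.wt f :=
            Finset.sum_le_sum_of_subset_of_nonneg hsplit (fun f _ _ => wt_nonneg hl f)
        _ ≤ ∑ f ∈ A, D.wt f + ∑ f ∈ B1 ∪ B2, D.wt f := by
            rw [← Finset.sum_union_inter]
            have := Finset.sum_nonneg (fun f (_ : f ∈ A ∩ (B1 ∪ B2)) => wt_nonneg hl f)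
            linarith
        _ ≤ ∑ f ∈ A, D.wt f + (∑ f ∈ B1, D.wt f + ∑ f ∈ B2, D.wt f) := by
            have h5 := Finset.sum_union_inter (s₁ := B1) (s₂ := B2) (f := D.wt)
            have := Finset.sum_nonneg (fun f (_ : f ∈ B1 ∩ B2) => wt_nonneg hl f)
            linarith
    linarith
  calc D.lam τ.1 * (3 / 4 * Q) ≤ D.lam τ.1 * ∑ f ∈ A, D.wt f :=
        mul_le_mul_of_nonneg_left hA (hl τ.1)
    _ = ∑ f ∈ A, D.wt (Function.update f τ (some y)) := by
        rw [Finset.mul_sum]
        apply Finset.sum_congr rfl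
        intro f hf
        rw [Finset.mem_filter] at hf
        rw [wt_update f τ hf.2.1]
        rfl
    _ = ∑ f ∈ A.image (fun f => Function.update f τ (some y)), D.wt f := by
        rw [Finset.sum_image]
        intro f hf f' hf' h
        rw [Finset.mem_coe, Finset.mem_filter] at hf hf'
        funext σ
        by_cases hσ : σ = τ
        · rw [hσ, hf.2.1, hf'.2.1]
        · have := congrFun h σ
          simpa [Function.update_of_ne hσ] using this
    _ ≤ ∑ f ∈ (D.Fib S v x ω).filter (fun f => f τ = some y), D.wt f := by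
        apply Finset.sum_le_sum_of_subset_of_nonneg
        · intro g hg
          rw [Finset.mem_image] at hg
          obtain ⟨f, hf, rfl⟩ := hg
          rw [Finset.mem_filter] at hf
          rw [Finset.mem_filter]
          exact ⟨fib_update_some hH hω hT hf.1 hτ hy hf.2.2, by simp⟩
        · intro f _ _
          exact wt_nonneg hl f

end Local2

section Local3

variable {S : Finset (W × Bool)} {v : W} {x : V} {ω : W × Bool → Option V}

lemma card_T_fib (hH : ∀ y z, D.H.Adj x y → D.H.Adj x z → ¬ D.H.Adj y z)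
    (hω : D.Good S ω) (hT : D.T v x ω = ∅) {f : W × Bool → Option V}
    (hf : f ∈ D.Fib S v x ω) :
    ((D.T v x f).card : ℝ) =
      ∑ τ ∈ D.Bl S v ω, ∑ y ∈ D.Y x ω τ, (if f τ = some y then (1 : ℝ) else 0) := by
  rw [T_eq_of_mem_Fib hH hω hT hf, Finset.card_filter]
  push_cast
  apply Finset.sum_congr rfl
  intro τ hτ
  obtain ⟨_, h2, _⟩ := (mem_Fib hH hω hT).mp hf
  rcases h2 τ hτ with h | ⟨y, hy, h⟩
  · simp [h]
  · rw [h]
    simp [hy]

lemma local_ineq (hl : ∀ w, 0 ≤ D.lam w)
    (hH : ∀ y z, D.H.Adj x y → D.H.Adj x z → ¬ D.H.Adj y z)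
    (h2 : ∀ w, D.G.Adj v w → D.lam w * (((D.P w).filter (D.H.Adj x)).card : ℝ) ≤ 1 / 8)
    (h3 : ∀ y, ∑ w ∈ univ.filter (fun w => D.G.Adj v w ∧ y ∈ D.P w), 2 * D.lam w ≤ 1 / 8)
    (hω : D.Good S ω) (hT : D.T v x ω = ∅) (c : ℝ) :
    ∑ f ∈ D.Fib S v x ω, D.wt f * ((1 + c) - 4 / 3 * ((D.T v x f).card : ℝ)) ≤
      Real.exp c * D.wt ω := by
  set Q := ∑ f ∈ D.Fib S v x ω, D.wt f with hQ
  have hQ0 : 0 ≤ Q := Finset.sum_nonneg (fun f _ => wt_nonneg hl f)
  set Λ := D.Lam S v x ω with hΛ
  have e1 : 3 / 4 * Λ * Q ≤ ∑ f ∈ D.Fib S v x ω, D.wt f * ((D.T v x f).card : ℝ) := by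
    calc 3 / 4 * Λ * Q = ∑ τ ∈ D.Bl S v ω, ∑ y ∈ D.Y x ω τ, D.lam τ.1 * (3 / 4 * Q) := by
          have e0 : 3 / 4 * Λ * Q =
              (∑ τ ∈ D.Bl S v ω, D.lam τ.1 * ((D.Y x ω τ).card : ℝ)) * (3 / 4 * Q) := by
            rw [hΛ, Lam]; ring
          rw [e0, Finset.sum_mul]
          apply Finset.sum_congr rfl
          intro τ _
          rw [Finset.sum_const, nsmul_eq_mul]
          ring
      _ ≤ ∑ τ ∈ D.Bl S v ω, ∑ y ∈ D.Y x ω τ,
            ∑ f ∈ (D.Fib S v x ω).filter (fun f => f τ = some y), D.wt f := by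
          apply Finset.sum_le_sum
          intro τ hτ
          apply Finset.sum_le_sum
          intro y hy
          exact fib_placed_ge hl hH h2 h3 hω hT hτ hy
      _ = ∑ f ∈ D.Fib S v x ω, D.wt f * ((D.T v x f).card : ℝ) := by
          have e2 : ∑ f ∈ D.Fib S v x ω, D.wt f * ((D.T v x f).card : ℝ) =
              ∑ f ∈ D.Fib S v x ω, ∑ τ ∈ D.Bl S v ω, ∑ y ∈ D.Y x ω τ,
                (if f τ = some y then D.wt f else 0) := by
            apply Finset.sum_congr rfl
            intro f hf
            rw [card_T_fib hH hω hT hf, Finset.mul_sum]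
            apply Finset.sum_congr rfl
            intro τ _
            rw [Finset.mul_sum]
            apply Finset.sum_congr rfl
            intro y _
            split_ifs <;> simp
          rw [e2, Finset.sum_comm]
          apply Finset.sum_congr rfl
          intro τ _
          rw [Finset.sum_comm]
          apply Finset.sum_congr rfl
          intro y _
          rw [Finset.sum_filter]
  have e3 : ∑ f ∈ D.Fib S v x ω, D.wt f * ((1 + c) - 4 / 3 * ((D.T v x f).card : ℝ)) =
      (1 + c) * Q - 4 / 3 * ∑ f ∈ D.Fib S v x ω, D.wt f * ((D.T v x f).card : ℝ) := by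
    rw [hQ, Finset.mul_sum, Finset.mul_sum, ← Finset.sum_sub_distrib]
    apply Finset.sum_congr rfl
    intro f _
    ring
  have e4 : ∑ f ∈ D.Fib S v x ω, D.wt f * ((1 + c) - 4 / 3 * ((D.T v x f).card : ℝ)) ≤
      (1 + (c - Λ)) * Q := by
    rw [e3]
    nlinarith [e1]
  have hwt := wt_nonneg hl ω
  have e5 := fib_sum_le hl hH hω hT
  rw [← hQ, ← hΛ] at e5
  by_cases hs : 0 ≤ 1 + (c - Λ)
  · calc ∑ f ∈ D.Fib S v x ω, D.wt f * ((1 + c) - 4 / 3 * ((D.T v x f).card : ℝ))
        ≤ (1 + (c - Λ)) * Q := e4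
      _ ≤ (1 + (c - Λ)) * (Real.exp Λ * D.wt ω) := mul_le_mul_of_nonneg_left e5 hs
      _ ≤ Real.exp (c - Λ) * (Real.exp Λ * D.wt ω) := by
          apply mul_le_mul_of_nonneg_right _ (by positivity)
          rw [add_comm]
          exact Real.add_one_le_exp _
      _ = Real.exp c * D.wt ω := by
          rw [← mul_assoc, ← Real.exp_add]
          congr 2
          ring
  · push Not at hs
    calc ∑ f ∈ D.Fib S v x ω, D.wt f * ((1 + c) - 4 / 3 * ((D.T v x f).card : ℝ))
        ≤ (1 + (c - Λ)) * Q := e4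
      _ ≤ 0 := mul_nonpos_of_nonpos_of_nonneg hs.le hQ0
      _ ≤ Real.exp c * D.wt ω := by positivity

end Local3

/-! ### The global counting step -/

/-- the hypotheses of the counting lemma -/
structure Hyp (D : Setup W V) (Δ : ℕ) (M ρ : ℝ) : Prop where
  lam_nonneg : ∀ w, 0 ≤ D.lam w
  M_pos : 0 < M
  rho_nonneg : 0 ≤ ρ
  /-- triangle-freeness -/
  tri : ∀ x y z, D.H.Adj x y → D.H.Adj x z → ¬ D.H.Adj y z
  deg : ∀ v, ((univ.filter (fun w => D.G.Adj v w)).card : ℝ) ≤ Δ
  /-- local weight -/
  h2 : ∀ v w x, D.G.Adj v w → x ∈ D.P v →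
    D.lam w * (((D.P w).filter (D.H.Adj x)).card : ℝ) ≤ 1 / 8
  /-- competition for a place -/
  h3 : ∀ v y, ∑ w ∈ univ.filter (fun w => D.G.Adj v w ∧ y ∈ D.P w), 2 * D.lam w ≤ 1 / 8
  /-- load -/
  h4 : ∀ v w y, D.G.Adj v w → y ∈ D.P w →
    2 * Δ * (((D.P v).filter (D.H.Adj y)).card : ℝ) ≤ ρ * (D.P v).card
  /-- used places -/
  h5 : ∀ v, ((univ.filter (fun τ : W × Bool => ¬ Disjoint (D.P τ.1) (D.P v))).card : ℝ) ≤
    1 / 4 * Real.exp (-(2 * ρ)) * (D.P v).card
  h6 : ∀ v, M ≤ D.lam v * (1 / 2 * Real.exp (-(2 * ρ)) * (D.P v).card)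
  h7 : 6 * Δ ≤ M ^ 2


section Global

variable {Δ : ℕ} {M ρ : ℝ}

lemma good_erase_two {S : Finset (W × Bool)} {f : W × Bool → Option V} (hf : D.Good S f) (w : W) :
    D.Good ((S.erase (w, false)).erase (w, true))
      (Function.update (Function.update f (w, false) none) (w, true) none) := by
  have aux : ∀ τ x, Function.update (Function.update f (w, false) none) (w, true) none τ = some x →
      f τ = some x := by
    intro τ x h
    by_cases h1 : τ = (w, true)
    · subst h1; simp at h
    · rw [Function.update_of_ne h1] at h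
      by_cases h2 : τ = (w, false)
      · subst h2; simp at h
      · rwa [Function.update_of_ne h2] at h
  have hv := hf.valid.sub aux
  refine ⟨⟨?_, hv.mem, hv.inj, hv.comp⟩, ?_⟩
  · intro τ hτ
    by_cases h1 : τ = (w, true)
    · subst h1; simp
    · rw [Function.update_of_ne h1]
      by_cases h2 : τ = (w, false)
      · subst h2; simp
      · rw [Function.update_of_ne h2]
        apply hf.valid.supp
        intro hS
        apply hτ
        rw [Finset.mem_erase, Finset.mem_erase]
        exact ⟨h1, h2, hS⟩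
  · intro w' h0 h1 hn
    rw [Finset.mem_erase, Finset.mem_erase] at h0 h1
    have hne : w' ≠ w := by
      intro h
      apply h0.2.1
      rw [h]
    have e0 : Function.update (Function.update f (w, false) none) (w, true) none (w', false) =
        f (w', false) := by
      rw [Function.update_of_ne (by intro h; exact hne (congrArg Prod.fst h)),
        Function.update_of_ne (by intro h; exact hne (congrArg Prod.fst h))]
    have e1 : Function.update (Function.update f (w, false) none) (w, true) none (w', true) =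
        f (w', true) := by
      rw [Function.update_of_ne (by intro h; exact hne (congrArg Prod.fst h)),
        Function.update_of_ne (by intro h; exact hne (congrArg Prod.fst h))]
    rw [e0, e1] at hn
    exact hf.full w' h0.2.2 h1.2.2 hn

lemma bad_bound (h : D.Hyp Δ M ρ) (S : Finset (W × Bool))
    (IH : ∀ S' : Finset (W × Bool), S'.card < S.card → ∀ σ, σ ∉ S' →
      M * D.Z S' ≤ D.Z (insert σ S')) (v : W) (x : V) (hx : x ∈ D.P v) :
    ∑ f ∈ (D.good S).filter (fun f => D.E v x f ∉ D.good S), D.wt f ≤ 1 / 4 * D.Z S := by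
  have hl := h.lam_nonneg
  let Nw : Finset W := univ.filter (fun w => D.G.Adj v w ∧ (w, false) ∈ S ∧ (w, true) ∈ S)
  let O : W → Finset V := fun w => (D.P w).filter (D.H.Adj x)
  let B : W → Finset (W × Bool → Option V) := fun w =>
    (D.good S).filter (fun f => ∀ j, f (w, j) = none ∨ ∃ y ∈ O w, f (w, j) = some y)
  have hsub : (D.good S).filter (fun f => D.E v x f ∉ D.good S) ⊆ Nw.biUnion B := by
    intro f hf
    rw [Finset.mem_filter, mem_good, mem_good] at hf
    obtain ⟨hg, hb⟩ := hf
    have h1 : ¬ ∀ w, (w, false) ∈ S → (w, true) ∈ S →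
        ¬ (D.E v x f (w, false) = none ∧ D.E v x f (w, true) = none) := by
      intro hall
      exact hb ⟨hg.valid.E v x, hall⟩
    push Not at h1
    obtain ⟨w, h0, h1, h2, h3⟩ := h1
    have h4 := hg.full w h0 h1
    have hadj : D.G.Adj v w := by
      by_contra hadj
      apply h4
      have aux : ∀ j, (w, j) ∉ D.T v x f := by
        intro j hj
        exact hadj (mem_T.mp hj).1
      rw [E_of_not_mem (aux false)] at h2
      rw [E_of_not_mem (aux true)] at h3
      exact ⟨h2, h3⟩
    rw [Finset.mem_biUnion]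
    refine ⟨w, ?_, ?_⟩
    · rw [Finset.mem_filter]
      exact ⟨Finset.mem_univ _, hadj, h0, h1⟩
    · rw [Finset.mem_filter, mem_good]
      refine ⟨hg, ?_⟩
      intro j
      have hj : D.E v x f (w, j) = none := by
        cases j
        · exact h2
        · exact h3
      by_cases hm : (w, j) ∈ D.T v x f
      · right
        obtain ⟨_, y, hy, hxy⟩ := mem_T.mp hm
        exact ⟨y, Finset.mem_filter.mpr ⟨hg.valid.mem _ y hy, hxy⟩, hy⟩
      · left
        rw [← E_of_not_mem hm, hj]
  have hBw : ∀ w ∈ Nw, ∑ f ∈ B w, D.wt f ≤ 81 / 64 * (D.Z S / M ^ 2) := by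
    intro w hw
    rw [Finset.mem_filter] at hw
    obtain ⟨_, hadj, h0, h1⟩ := hw
    have hO : D.lam w * ((O w).card : ℝ) ≤ 1 / 8 := h.h2 v w x hadj hx
    have hO0 : 0 ≤ D.lam w * ((O w).card : ℝ) := mul_nonneg (hl w) (Nat.cast_nonneg _)
    let A1 := (B w).image (fun f => Function.update f (w, false) none)
    have s1 : ∑ f ∈ B w, D.wt f ≤ (1 + D.lam w * ((O w).card : ℝ)) * ∑ f ∈ A1, D.wt f := by
      apply erase_bound hl (B w) A1 (w, false) (O w)
      · intro f hf
        exact (Finset.mem_filter.mp hf).2 false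
      · intro f hf
        exact Finset.mem_image_of_mem _ hf
    have s2 : ∑ f ∈ A1, D.wt f ≤ (1 + D.lam w * ((O w).card : ℝ)) *
        D.Z ((S.erase (w, false)).erase (w, true)) := by
      apply erase_bound hl A1 _ (w, true) (O w)
      · intro f hf
        rw [Finset.mem_image] at hf
        obtain ⟨f', hf', rfl⟩ := hf
        rw [Function.update_of_ne (by simp)]
        exact (Finset.mem_filter.mp hf').2 true
      · intro f hf
        rw [Finset.mem_image] at hf
        obtain ⟨f', hf', rfl⟩ := hf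
        rw [mem_good]
        exact good_erase_two (mem_good.mp (Finset.mem_filter.mp hf').1) w
    have hc0 : (S.erase (w, false)).card < S.card := Finset.card_erase_lt_of_mem h0
    have hm1 : (w, true) ∈ S.erase (w, false) := by
      rw [Finset.mem_erase]
      exact ⟨by simp, h1⟩
    have hc1 : ((S.erase (w, false)).erase (w, true)).card < S.card :=
      lt_trans (Finset.card_erase_lt_of_mem hm1) hc0
    have i1 := IH _ hc1 (w, true) (Finset.notMem_erase _ _)
    rw [Finset.insert_erase hm1] at i1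
    have i2 := IH _ hc0 (w, false) (Finset.notMem_erase _ _)
    rw [Finset.insert_erase h0] at i2
    have hZ0 := Z_nonneg (D := D) hl ((S.erase (w, false)).erase (w, true))
    have hM := h.M_pos
    have i3 : M ^ 2 * D.Z ((S.erase (w, false)).erase (w, true)) ≤ D.Z S := by
      calc M ^ 2 * D.Z ((S.erase (w, false)).erase (w, true))
          = M * (M * D.Z ((S.erase (w, false)).erase (w, true))) := by ring
        _ ≤ M * D.Z (S.erase (w, false)) := mul_le_mul_of_nonneg_left i1 hM.le
        _ ≤ D.Z S := i2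
    have i4 : D.Z ((S.erase (w, false)).erase (w, true)) ≤ D.Z S / M ^ 2 := by
      rw [le_div_iff₀ (by positivity)]
      linarith
    have s3 : (1 + D.lam w * ((O w).card : ℝ)) ≤ 9 / 8 := by linarith
    calc ∑ f ∈ B w, D.wt f ≤ (1 + D.lam w * ((O w).card : ℝ)) * ∑ f ∈ A1, D.wt f := s1
      _ ≤ (1 + D.lam w * ((O w).card : ℝ)) * ((1 + D.lam w * ((O w).card : ℝ)) *
            D.Z ((S.erase (w, false)).erase (w, true))) :=
          mul_le_mul_of_nonneg_left s2 (by linarith)
      _ ≤ 9 / 8 * (9 / 8 * D.Z ((S.erase (w, false)).erase (w, true))) := by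
          apply mul_le_mul s3 _ (by positivity) (by norm_num)
          exact mul_le_mul_of_nonneg_right s3 hZ0
      _ ≤ 81 / 64 * (D.Z S / M ^ 2) := by
          have : 9 / 8 * (9 / 8 * D.Z ((S.erase (w, false)).erase (w, true))) =
            81 / 64 * D.Z ((S.erase (w, false)).erase (w, true)) := by ring
          rw [this]
          exact mul_le_mul_of_nonneg_left i4 (by norm_num)
  have hZS := Z_nonneg (D := D) hl S
  have hM := h.M_pos
  calc ∑ f ∈ (D.good S).filter (fun f => D.E v x f ∉ D.good S), D.wt f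
      ≤ ∑ f ∈ Nw.biUnion B, D.wt f :=
        Finset.sum_le_sum_of_subset_of_nonneg hsub (fun f _ _ => wt_nonneg hl f)
    _ ≤ ∑ w ∈ Nw, ∑ f ∈ B w, D.wt f := by
        have : ∀ N : Finset W, ∑ f ∈ N.biUnion B, D.wt f ≤ ∑ w ∈ N, ∑ f ∈ B w, D.wt f := by
          intro N
          induction N using Finset.induction_on with
          | empty => simp
          | insert a N' ha ih =>
            rw [Finset.biUnion_insert, Finset.sum_insert ha]
            have h5 := Finset.sum_union_inter (s₁ := B a) (s₂ := N'.biUnion B) (f := D.wt)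
            have := Finset.sum_nonneg (fun f (_ : f ∈ B a ∩ N'.biUnion B) => wt_nonneg hl f)
            linarith
        exact this Nw
    _ ≤ ∑ w ∈ Nw, 81 / 64 * (D.Z S / M ^ 2) := Finset.sum_le_sum hBw
    _ = (Nw.card : ℝ) * (81 / 64 * (D.Z S / M ^ 2)) := by
        rw [Finset.sum_const, nsmul_eq_mul]
    _ ≤ (Δ : ℝ) * (81 / 64 * (D.Z S / M ^ 2)) := by
        apply mul_le_mul_of_nonneg_right _ (by positivity)
        refine le_trans ?_ (h.deg v)
        exact_mod_cast Finset.card_le_card (by
          intro w hw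
          rw [Finset.mem_filter] at hw ⊢
          exact ⟨hw.1, hw.2.1⟩)
    _ ≤ 1 / 4 * D.Z S := by
        have h7 := h.h7
        have e : (Δ : ℝ) * (81 / 64 * (D.Z S / M ^ 2)) = 81 / 64 * ((Δ : ℝ) / M ^ 2) * D.Z S := by
          ring
        rw [e]
        apply mul_le_mul_of_nonneg_right _ hZS
        have h8 : (Δ : ℝ) / M ^ 2 ≤ 1 / 6 := by
          rw [div_le_iff₀ (by positivity)]
          linarith
        linarith

end Global

section Main

variable {Δ : ℕ} {M ρ : ℝ}

/-- the places free for a clone of `v` in the placement `f` -/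
noncomputable def F (D : Setup W V) (v : W) (f : W × Bool → Option V) : Finset V :=
  (D.P v).filter (fun x => (∀ τ, f τ ≠ some x) ∧ D.T v x f = ∅)

lemma good_insert {S : Finset (W × Bool)} {f : W × Bool → Option V} (hf : D.Good S f)
    {v : W} {i : Bool} (hσ : (v, i) ∉ S) {x : V} (hx : x ∈ D.F v f) :
    D.Good (insert (v, i) S) (Function.update f (v, i) (some x)) := by
  rw [F, Finset.mem_filter] at hx
  obtain ⟨hxP, hxu, hxT⟩ := hx
  have key : ∀ τ y, Function.update f (v, i) (some x) τ = some y →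
      (τ = (v, i) ∧ y = x) ∨ (τ ≠ (v, i) ∧ f τ = some y) := by
    intro τ y h
    by_cases hτ : τ = (v, i)
    · left
      subst hτ
      rw [Function.update_self] at h
      exact ⟨rfl, by simpa using h.symm⟩
    · right
      rw [Function.update_of_ne hτ] at h
      exact ⟨hτ, h⟩
  have hTx : ∀ τ y, f τ = some y → D.G.Adj v τ.1 → ¬ D.H.Adj x y := by
    intro τ y hy hadj hxy
    have : τ ∈ D.T v x f := mem_T.mpr ⟨hadj, y, hy, hxy⟩
    rw [hxT] at this
    exact absurd this (Finset.notMem_empty τ)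
  refine ⟨⟨?_, ?_, ?_, ?_⟩, ?_⟩
  · intro τ hτ
    rw [Finset.mem_insert] at hτ
    push Not at hτ
    rw [Function.update_of_ne hτ.1]
    exact hf.valid.supp τ hτ.2
  · intro τ y h
    rcases key τ y h with ⟨h1, h2⟩ | ⟨_, h2⟩
    · rw [h1, h2]; exact hxP
    · exact hf.valid.mem τ y h2
  · intro τ τ' y h h'
    rcases key τ y h with ⟨h1, h2⟩ | ⟨_, h2⟩
    · rcases key τ' y h' with ⟨h1', h2'⟩ | ⟨_, h2'⟩
      · rw [h1, h1']
      · exfalso; rw [h2] at h2'; exact hxu τ' h2'
    · rcases key τ' y h' with ⟨h1', h2'⟩ | ⟨_, h2'⟩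
      · exfalso; rw [h2'] at h2; exact hxu τ h2
      · exact hf.valid.inj τ τ' y h2 h2'
  · intro τ τ' a b ha hb hadj
    rcases key τ a ha with ⟨h1, h2⟩ | ⟨_, h2⟩
    · rcases key τ' b hb with ⟨h1', h2'⟩ | ⟨_, h2'⟩
      · rw [h1, h1'] at hadj
        exact absurd hadj (D.G.loopless.irrefl _)
      · rw [h2]
        rw [h1] at hadj
        exact hTx τ' b h2' hadj
    · rcases key τ' b hb with ⟨h1', h2'⟩ | ⟨_, h2'⟩
      · rw [h2']
        rw [h1'] at hadj
        intro hab
        exact hTx τ a h2 hadj.symm hab.symm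
      · exact hf.valid.comp τ τ' a b h2 h2' hadj
  · intro w h0 h1 hn
    by_cases hw : w = v
    · subst hw
      cases i
      · have := hn.1
        simp at this
      · have := hn.2
        simp at this
    · have hne : ∀ j, (w, j) ≠ (v, i) := fun j h => hw (congrArg Prod.fst h)
      rw [Finset.mem_insert] at h0 h1
      have h0' := h0.resolve_left (hne false)
      have h1' := h1.resolve_left (hne true)
      rw [Function.update_of_ne (hne false), Function.update_of_ne (hne true)] at hn
      exact hf.full w h0' h1' hn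

lemma Z_insert_ge (hl : ∀ w, 0 ≤ D.lam w) {S : Finset (W × Bool)} {v : W} {i : Bool}
    (hσ : (v, i) ∉ S) :
    D.lam v * ∑ f ∈ D.good S, D.wt f * ((D.F v f).card : ℝ) ≤ D.Z (insert (v, i) S) := by
  calc D.lam v * ∑ f ∈ D.good S, D.wt f * ((D.F v f).card : ℝ)
      = ∑ f ∈ D.good S, ∑ x ∈ D.F v f, D.wt (Function.update f (v, i) (some x)) := by
        rw [Finset.mul_sum]
        apply Finset.sum_congr rfl
        intro f hf
        rw [Finset.sum_congr rfl (fun x _ => wt_update f (v, i)
          ((mem_good.mp hf).valid.supp _ hσ) (some x))]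
        simp only [wo]
        rw [Finset.sum_const, nsmul_eq_mul]
        ring
    _ = ∑ p ∈ (D.good S).sigma (fun f => D.F v f),
          D.wt (Function.update p.1 (v, i) (some p.2)) := by
        rw [Finset.sum_sigma]
    _ = ∑ g ∈ ((D.good S).sigma (fun f => D.F v f)).image
          (fun p => Function.update p.1 (v, i) (some p.2)), D.wt g := by
        rw [Finset.sum_image]
        rintro ⟨f, x⟩ hp ⟨f', x'⟩ hp' h
        rw [Finset.mem_coe, Finset.mem_sigma] at hp hp'
        simp only at hp hp' h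
        have hx : x = x' := by
          have := congrFun h (v, i)
          simpa using this
        have hff : f = f' := by
          funext τ
          by_cases hτ : τ = (v, i)
          · rw [hτ, (mem_good.mp hp.1).valid.supp _ hσ, (mem_good.mp hp'.1).valid.supp _ hσ]
          · have := congrFun h τ
            simpa [Function.update_of_ne hτ] using this
        rw [hx, hff]
    _ ≤ D.Z (insert (v, i) S) := by
        apply Finset.sum_le_sum_of_subset_of_nonneg
        · intro g hg
          rw [Finset.mem_image] at hg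
          obtain ⟨⟨f, x⟩, hp, rfl⟩ := hg
          rw [Finset.mem_sigma] at hp
          rw [mem_good]
          exact good_insert (mem_good.mp hp.1) hσ hp.2
        · intro f _ _
          exact wt_nonneg hl f

lemma point_ineq (h : D.Hyp Δ M ρ) (S : Finset (W × Bool))
    (IH : ∀ S' : Finset (W × Bool), S'.card < S.card → ∀ σ, σ ∉ S' →
      M * D.Z S' ≤ D.Z (insert σ S')) (v : W) (x : V) (hx : x ∈ D.P v) (c : ℝ) (hc : 0 ≤ c) :
    (1 + c) * (3 / 4 * D.Z S) - 4 / 3 * ∑ f ∈ D.good S, D.wt f * ((D.T v x f).card : ℝ) ≤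
      Real.exp c * ∑ f ∈ (D.good S).filter (fun f => D.T v x f = ∅), D.wt f := by
  have hl := h.lam_nonneg
  let A := (D.good S).filter (fun f => D.E v x f ∈ D.good S)
  have hbad := bad_bound h S IH v x hx
  have hsplit : D.Z S = ∑ f ∈ A, D.wt f +
      ∑ f ∈ (D.good S).filter (fun f => D.E v x f ∉ D.good S), D.wt f := by
    rw [Z, Finset.sum_filter_add_sum_filter_not]
  have hA : 3 / 4 * D.Z S ≤ ∑ f ∈ A, D.wt f := by linarith
  have hmaps : ∀ f ∈ A, D.E v x f ∈ (D.good S).filter (fun f => D.T v x f = ∅) := by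
    intro f hf
    rw [Finset.mem_filter]
    exact ⟨(Finset.mem_filter.mp hf).2, T_E⟩
  calc (1 + c) * (3 / 4 * D.Z S) - 4 / 3 * ∑ f ∈ D.good S, D.wt f * ((D.T v x f).card : ℝ)
      ≤ (1 + c) * ∑ f ∈ A, D.wt f - 4 / 3 * ∑ f ∈ A, D.wt f * ((D.T v x f).card : ℝ) := by
        have e1 : (1 + c) * (3 / 4 * D.Z S) ≤ (1 + c) * ∑ f ∈ A, D.wt f :=
          mul_le_mul_of_nonneg_left hA (by linarith)
        have e2 : ∑ f ∈ A, D.wt f * ((D.T v x f).card : ℝ) ≤
            ∑ f ∈ D.good S, D.wt f * ((D.T v x f).card : ℝ) := by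
          apply Finset.sum_le_sum_of_subset_of_nonneg (Finset.filter_subset _ _)
          intro f _ _
          exact mul_nonneg (wt_nonneg hl f) (Nat.cast_nonneg _)
        linarith
    _ = ∑ f ∈ A, D.wt f * ((1 + c) - 4 / 3 * ((D.T v x f).card : ℝ)) := by
        rw [Finset.mul_sum, Finset.mul_sum, ← Finset.sum_sub_distrib]
        apply Finset.sum_congr rfl
        intro f _
        ring
    _ = ∑ ω ∈ (D.good S).filter (fun f => D.T v x f = ∅),
          ∑ f ∈ A.filter (fun f => D.E v x f = ω),
            D.wt f * ((1 + c) - 4 / 3 * ((D.T v x f).card : ℝ)) := by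
        rw [Finset.sum_fiberwise_of_maps_to hmaps]
    _ ≤ ∑ ω ∈ (D.good S).filter (fun f => D.T v x f = ∅), Real.exp c * D.wt ω := by
        apply Finset.sum_le_sum
        intro ω hω
        rw [Finset.mem_filter] at hω
        have hfib : A.filter (fun f => D.E v x f = ω) = D.Fib S v x ω := by
          ext f
          rw [Finset.mem_filter, Finset.mem_filter, Fib, Finset.mem_filter]
          constructor
          · rintro ⟨⟨h1, _⟩, h3⟩
            exact ⟨h1, h3⟩
          · rintro ⟨h1, h3⟩
            exact ⟨⟨h1, by rw [h3]; exact hω.1⟩, h3⟩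
        rw [hfib]
        exact local_ineq hl (h.tri x) (fun w hw => h.h2 v w x hw hx) (h.h3 v)
          (mem_good.mp hω.1) hω.2 c
    _ = Real.exp c * ∑ f ∈ (D.good S).filter (fun f => D.T v x f = ∅), D.wt f := by
        rw [Finset.mul_sum]

lemma load_bound (h : D.Hyp Δ M ρ) (S : Finset (W × Bool)) (v : W)
    {f : W × Bool → Option V} (hf : D.Good S f) :
    ∑ x ∈ D.P v, ((D.T v x f).card : ℝ) ≤ ρ * (D.P v).card := by
  have hρ := h.rho_nonneg
  let C : Finset (W × Bool) := univ.filter (fun τ => D.G.Adj v τ.1)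
  have hC : (C.card : ℝ) ≤ 2 * Δ := by
    have e : C = (univ.filter (fun w => D.G.Adj v w)) ×ˢ (univ : Finset Bool) := by
      ext τ
      simp [C]
    have := h.deg v
    rw [e, Finset.card_product]
    push_cast
    simp only [Finset.card_univ, Fintype.card_bool]
    push_cast
    linarith
  have e1 : ∑ x ∈ D.P v, ((D.T v x f).card : ℝ) =
      ∑ τ ∈ C, (((D.P v).filter (fun x => ∃ y, f τ = some y ∧ D.H.Adj x y)).card : ℝ) := by
    have e2 : ∀ x, ((D.T v x f).card : ℝ) =
        ∑ τ ∈ C, (if (∃ y, f τ = some y ∧ D.H.Adj x y) then (1 : ℝ) else 0) := by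
      intro x
      rw [← Finset.natCast_card_filter, T]
      congr 2
      ext τ
      simp [C]
    simp_rw [e2]
    rw [Finset.sum_comm]
    apply Finset.sum_congr rfl
    intro τ _
    rw [Finset.natCast_card_filter]
  rw [e1]
  rcases Nat.eq_zero_or_pos Δ with h0 | h0
  · have : C = ∅ := by
      rw [← Finset.card_eq_zero]
      rw [h0] at hC
      have : (C.card : ℝ) ≤ 0 := by simpa using hC
      exact_mod_cast le_antisymm this (Nat.cast_nonneg _)
    rw [this, Finset.sum_empty]
    positivity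
  · have hΔ : (0 : ℝ) < Δ := by exact_mod_cast h0
    have e3 : ∀ τ ∈ C, (((D.P v).filter (fun x => ∃ y, f τ = some y ∧ D.H.Adj x y)).card : ℝ) ≤
        ρ * (D.P v).card / (2 * Δ) := by
      intro τ hτ
      rw [le_div_iff₀ (by positivity)]
      have hadj : D.G.Adj v τ.1 := (Finset.mem_filter.mp hτ).2
      rcases ho : f τ with _ | y
      · simp
        positivity
      · have h4 := h.h4 v τ.1 y hadj (hf.valid.mem τ y ho)
        have e4 : (D.P v).filter (fun x => ∃ y', some y = some y' ∧ D.H.Adj x y') =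
            (D.P v).filter (D.H.Adj y) := by
          ext x
          simp only [Finset.mem_filter, Option.some.injEq, exists_eq_left']
          rw [D.H.adj_comm]
        rw [e4]
        linarith
    calc ∑ τ ∈ C, (((D.P v).filter (fun x => ∃ y, f τ = some y ∧ D.H.Adj x y)).card : ℝ)
        ≤ ∑ τ ∈ C, ρ * (D.P v).card / (2 * Δ) := Finset.sum_le_sum e3
      _ = (C.card : ℝ) * (ρ * (D.P v).card / (2 * Δ)) := by rw [Finset.sum_const, nsmul_eq_mul]
      _ ≤ (2 * Δ) * (ρ * (D.P v).card / (2 * Δ)) := by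
          apply mul_le_mul_of_nonneg_right hC
          positivity
      _ = ρ * (D.P v).card := by field_simp

lemma used_bound (h : D.Hyp Δ M ρ) (S : Finset (W × Bool)) (v : W)
    {f : W × Bool → Option V} (hf : D.Good S f) :
    (((D.P v).filter (fun x => D.T v x f = ∅)).card : ℝ) -
      1 / 4 * Real.exp (-(2 * ρ)) * (D.P v).card ≤ ((D.F v f).card : ℝ) := by
  let Us := (D.P v).filter (fun x => ∃ τ, f τ = some x)
  have h1 : (Us.card : ℝ) ≤ 1 / 4 * Real.exp (-(2 * ρ)) * (D.P v).card := by
    refine le_trans ?_ (h.h5 v)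
    have : Us.card ≤ (univ.filter (fun τ : W × Bool => ¬ Disjoint (D.P τ.1) (D.P v))).card := by
      have hch : ∀ x : V, ∃ τ : W × Bool, (∃ τ, f τ = some x) → f τ = some x := by
        intro x
        by_cases hx : ∃ τ, f τ = some x
        · obtain ⟨τ, hτ⟩ := hx
          exact ⟨τ, fun _ => hτ⟩
        · exact ⟨(v, false), fun hx' => absurd hx' hx⟩
      choose g hg using hch
      apply Finset.card_le_card_of_injOn g
      · intro x hx
        rw [Finset.mem_coe, Finset.mem_filter] at hx
        rw [Finset.mem_coe, Finset.mem_filter]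
        refine ⟨Finset.mem_univ _, ?_⟩
        rw [Finset.not_disjoint_iff]
        exact ⟨x, hf.valid.mem _ x (hg x hx.2), hx.1⟩
      · intro x hx x' hx' hxx
        rw [Finset.mem_coe, Finset.mem_filter] at hx hx'
        have e1 := hg x hx.2
        have e2 := hg x' hx'.2
        rw [hxx] at e1
        rw [e1] at e2
        simpa using e2
    exact_mod_cast this
  have h2 : ((D.P v).filter (fun x => D.T v x f = ∅)).card ≤ (D.F v f).card + Us.card := by
    refine le_trans (Finset.card_le_card ?_) (Finset.card_union_le _ _)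
    intro x hx
    rw [Finset.mem_filter] at hx
    rw [Finset.mem_union, F, Finset.mem_filter, Finset.mem_filter]
    by_cases hu : ∃ τ, f τ = some x
    · right; exact ⟨hx.1, hu⟩
    · left
      push Not at hu
      exact ⟨hx.1, hu, hx.2⟩
  have h3 : (((D.P v).filter (fun x => D.T v x f = ∅)).card : ℝ) ≤
      ((D.F v f).card : ℝ) + Us.card := by exact_mod_cast h2
  linarith

/-- the counting step -/
theorem step (h : D.Hyp Δ M ρ) : ∀ (n : ℕ) (S : Finset (W × Bool)), S.card = n →
    ∀ σ, σ ∉ S → M * D.Z S ≤ D.Z (insert σ S) := by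
  intro n
  induction n using Nat.strong_induction_on with
  | _ n ihn =>
    intro S hS σ hσ
    have IH : ∀ S' : Finset (W × Bool), S'.card < S.card → ∀ σ, σ ∉ S' →
        M * D.Z S' ≤ D.Z (insert σ S') := by
      intro S' hS' σ' hσ'
      exact ihn S'.card (hS ▸ hS') S' rfl σ' hσ'
    obtain ⟨v, i⟩ := σ
    have hl := h.lam_nonneg
    have hρ := h.rho_nonneg
    have hZ := Z_nonneg (D := D) hl S
    set p : ℝ := ((D.P v).card : ℝ) with hp
    have hp0 : 0 ≤ p := Nat.cast_nonneg _
    have hs1 : ∑ x ∈ D.P v, ((1 + 2 * ρ) * (3 / 4 * D.Z S) -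
        4 / 3 * ∑ f ∈ D.good S, D.wt f * ((D.T v x f).card : ℝ)) ≤
        ∑ x ∈ D.P v, Real.exp (2 * ρ) *
          ∑ f ∈ (D.good S).filter (fun f => D.T v x f = ∅), D.wt f := by
      apply Finset.sum_le_sum
      intro x hx
      exact point_ineq h S IH v x hx (2 * ρ) (by linarith)
    have e1 : ∑ x ∈ D.P v, ∑ f ∈ D.good S, D.wt f * ((D.T v x f).card : ℝ) ≤ ρ * p * D.Z S := by
      rw [Finset.sum_comm]
      calc ∑ f ∈ D.good S, ∑ x ∈ D.P v, D.wt f * ((D.T v x f).card : ℝ)
          = ∑ f ∈ D.good S, D.wt f * ∑ x ∈ D.P v, ((D.T v x f).card : ℝ) := by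
            apply Finset.sum_congr rfl
            intro f _
            rw [Finset.mul_sum]
        _ ≤ ∑ f ∈ D.good S, D.wt f * (ρ * p) := by
            apply Finset.sum_le_sum
            intro f hf
            exact mul_le_mul_of_nonneg_left (load_bound h S v (mem_good.mp hf)) (wt_nonneg hl f)
        _ = ρ * p * D.Z S := by
            rw [← Finset.sum_mul, Z]; ring
    have e2 : ∑ x ∈ D.P v, ∑ f ∈ (D.good S).filter (fun f => D.T v x f = ∅), D.wt f =
        ∑ f ∈ D.good S, D.wt f * (((D.P v).filter (fun x => D.T v x f = ∅)).card : ℝ) := by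
      simp_rw [Finset.sum_filter]
      rw [Finset.sum_comm]
      apply Finset.sum_congr rfl
      intro f _
      rw [← Finset.sum_filter, Finset.sum_const, nsmul_eq_mul]
      ring
    rw [Finset.sum_sub_distrib, Finset.sum_const, nsmul_eq_mul, ← hp,
      ← Finset.mul_sum, ← Finset.mul_sum, e2] at hs1
    set N := ∑ f ∈ D.good S, D.wt f * (((D.P v).filter (fun x => D.T v x f = ∅)).card : ℝ)
      with hN
    have e3 : 3 / 4 * p * D.Z S ≤ Real.exp (2 * ρ) * N := by
      have hpos : 0 ≤ p * D.Z S := mul_nonneg hp0 hZ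
      nlinarith [mul_nonneg hρ hpos]
    have e4 : 3 / 4 * Real.exp (-(2 * ρ)) * p * D.Z S ≤ N := by
      have := mul_le_mul_of_nonneg_left e3 (Real.exp_pos (-(2 * ρ))).le
      rw [← mul_assoc (Real.exp (-(2 * ρ))) (Real.exp (2 * ρ)) N, ← Real.exp_add] at this
      simp only [neg_add_cancel, Real.exp_zero, one_mul] at this
      linarith
    have e5 : N - 1 / 4 * Real.exp (-(2 * ρ)) * p * D.Z S ≤
        ∑ f ∈ D.good S, D.wt f * ((D.F v f).card : ℝ) := by
      have : N - 1 / 4 * Real.exp (-(2 * ρ)) * p * D.Z S = ∑ f ∈ D.good S, D.wt f *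
          ((((D.P v).filter (fun x => D.T v x f = ∅)).card : ℝ) -
            1 / 4 * Real.exp (-(2 * ρ)) * p) := by
        simp_rw [mul_sub]
        rw [Finset.sum_sub_distrib, ← Finset.sum_mul, hN, Z]
        ring
      rw [this]
      apply Finset.sum_le_sum
      intro f hf
      exact mul_le_mul_of_nonneg_left (used_bound h S v (mem_good.mp hf)) (wt_nonneg hl f)
    calc M * D.Z S ≤ (D.lam v * (1 / 2 * Real.exp (-(2 * ρ)) * p)) * D.Z S :=
          mul_le_mul_of_nonneg_right (h.h6 v) hZ
      _ = D.lam v * (1 / 2 * Real.exp (-(2 * ρ)) * p * D.Z S) := by ring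
      _ ≤ D.lam v * ∑ f ∈ D.good S, D.wt f * ((D.F v f).card : ℝ) := by
          apply mul_le_mul_of_nonneg_left _ (hl v)
          linarith
      _ ≤ D.Z (insert (v, i) S) := Z_insert_ge hl hσ

/-- all partition functions are positive -/
theorem Z_pos (h : D.Hyp Δ M ρ) (S : Finset (W × Bool)) : 0 < D.Z S := by
  induction S using Finset.induction_on with
  | empty =>
    have hg : (fun _ => none : W × Bool → Option V) ∈ D.good ∅ := by
      rw [mem_good]
      refine ⟨⟨fun _ _ => rfl, ?_, ?_, ?_⟩, ?_⟩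
      · intro τ x hx; exact absurd hx (by simp)
      · intro τ τ' x hx; exact absurd hx (by simp)
      · intro τ τ' x y hx; exact absurd hx (by simp)
      · intro w hw; exact absurd hw (Finset.notMem_empty _)
    have h1 : D.wt (fun _ => none : W × Bool → Option V) = 1 := by
      simp [wt, wo]
    calc (0 : ℝ) < D.wt (fun _ => none : W × Bool → Option V) := by rw [h1]; norm_num
      _ ≤ D.Z ∅ := Finset.single_le_sum (fun f _ => wt_nonneg h.lam_nonneg f) hg
  | insert a S ha ih =>
    have := step h S.card S rfl a ha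
    exact lt_of_lt_of_le (mul_pos h.M_pos ih) this

/-- **Counting lemma.** -/
theorem exists_embedding (h : D.Hyp Δ M ρ) :
    ∃ φ : W → V, Function.Injective φ ∧ (∀ w, φ w ∈ D.P w) ∧
      ∀ v w, D.G.Adj v w → ¬ D.H.Adj (φ v) (φ w) := by
  have hpos := Z_pos h (univ : Finset (W × Bool))
  have hne : (D.good univ).Nonempty := by
    by_contra hn
    rw [Finset.not_nonempty_iff_eq_empty] at hn
    rw [Z, hn, Finset.sum_empty] at hpos
    exact lt_irrefl _ hpos
  obtain ⟨f, hf⟩ := hne
  rw [mem_good] at hf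
  have hch : ∀ w, ∃ x, ∃ j, f (w, j) = some x := by
    intro w
    have := hf.full w (Finset.mem_univ _) (Finset.mem_univ _)
    by_contra hn
    push Not at hn
    apply this
    constructor
    · by_contra h1
      obtain ⟨x, hx⟩ := Option.ne_none_iff_exists'.mp h1
      exact hn x false hx
    · by_contra h1
      obtain ⟨x, hx⟩ := Option.ne_none_iff_exists'.mp h1
      exact hn x true hx
  choose φ j hφ using hch
  refine ⟨φ, ?_, ?_, ?_⟩
  · intro w w' hw
    have h1 := hφ w
    have h2 := hφ w'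
    rw [hw] at h1
    exact congrArg Prod.fst (hf.valid.inj _ _ _ h1 h2)
  · intro w
    exact hf.valid.mem _ _ (hφ w)
  · intro v w hadj
    exact hf.valid.comp _ _ _ _ (hφ v) (hφ w) hadj

end Main

end Setup

end Pool.Agent.TriRamsey
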