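import Mathlib

set_option autoImplicit false
set_option linter.unusedSectionVars false

open Finset Classical

namespace Pool.Agent.TriRamsey

variable {W V : Type*} [Fintype W] [Fintype V]

/-- places of `V'` not adjacent to the images of the neighbours of `u` in `A` -/
noncomputable def Fg (G : SimpleGraph W) (H : SimpleGraph V) (V' : Finset V) (g : W → V)
    (A : Finset W) (u : W) : Finset V :=
  V'.filter (fun x => ∀ a ∈ A, G.Adj u a → ¬ H.Adj (g a) x)

lemma exp_le_one_add_two_mul {t : ℝ} (h0 : 0 ≤ t) (h1 : t ≤ 1) : Real.exp t ≤ 1 + 2 * t := by
  have h2 : Real.exp t ≤ (1 - t) * Real.exp 0 + t * Real.exp 1 := by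
    have := convexOn_exp.2 (Set.mem_univ (0 : ℝ)) (Set.mem_univ (1 : ℝ)) (by linarith : 0 ≤ 1 - t)
      h0 (by ring)
    simpa using this
  have h3 : Real.exp 1 ≤ 3 := by
    have := Real.exp_one_lt_d9
    linarith
  rw [Real.exp_zero] at h2
  nlinarith

lemma place [Nonempty V] (G : SimpleGraph W) (H : SimpleGraph V) (A Us : Finset W)
    (I V' : Finset V) (α η : ℝ) (hα : 0 ≤ α) (hη : 0 ≤ η) (hη2 : 2 * η ≤ 1)
    (hAI : 2 * A.card ≤ I.card)
    (hd : ∀ x ∈ V', ((I.filter (H.Adj x)).card : ℝ) ≤ η / 2 * I.card)
    (hs : ∀ z ∈ I, α * ((V'.filter (H.Adj z)).card : ℝ) ≤ 1) :
    ∃ g : W → V, (∀ a ∈ A, g a ∈ I) ∧ Set.InjOn g A ∧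
      ∑ u ∈ Us, Real.exp (-(α * ((Fg G H V' g A u).card : ℝ))) ≤
      ∑ u ∈ Us, Real.exp (-(α * (1 - 2 * η) ^ ((A.filter (G.Adj u)).card) * (V'.card : ℝ))) := by
  have hr0 : 0 ≤ 1 - 2 * η := by linarith
  have hr1 : 1 - 2 * η ≤ 1 := by linarith
  have main : ∀ A0 : Finset W, A0 ⊆ A → ∃ g : W → V, (∀ a ∈ A0, g a ∈ I) ∧ Set.InjOn g A0 ∧
      ∑ u ∈ Us, Real.exp (-(α * (1 - 2 * η) ^ (((A \ A0).filter (G.Adj u)).card) *
        ((Fg G H V' g A0 u).card : ℝ))) ≤
      ∑ u ∈ Us, Real.exp (-(α * (1 - 2 * η) ^ ((A.filter (G.Adj u)).card) * (V'.card : ℝ))) := by
    intro A0
    induction A0 using Finset.induction_on with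
    | empty =>
      intro _
      refine ⟨fun _ => Classical.arbitrary V, ?_, ?_, ?_⟩
      · intro a ha; exact absurd ha (Finset.notMem_empty a)
      · simp
      · apply le_of_eq
        apply Finset.sum_congr rfl
        intro u _
        simp [Fg]
    | insert a A0 ha ih =>
      intro hsub
      have hsub0 : A0 ⊆ A := fun b hb => hsub (Finset.mem_insert_of_mem hb)
      have haA : a ∈ A := hsub (Finset.mem_insert_self a A0)
      obtain ⟨g, hgI, hginj, hgs⟩ := ih hsub0
      have hcA : A0.card + 1 ≤ A.card := by
        rw [← Finset.card_insert_of_notMem ha]
        exact Finset.card_le_card hsub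
      set J := I \ A0.image g with hJ
      have hJc : I.card ≤ J.card + A0.card := by
        have h1 := Finset.card_le_card_sdiff_add_card (s := I) (t := A0.image g)
        have h2 : (A0.image g).card ≤ A0.card := Finset.card_image_le
        rw [← hJ] at h1
        omega
      have hJpos : 0 < J.card := by omega
      have hJhalf : (I.card : ℝ) ≤ 2 * J.card := by
        have : I.card ≤ 2 * J.card := by omega
        exact_mod_cast this
      have hJne : J.Nonempty := Finset.card_pos.mp hJpos
      -- averaging
      have havg : ∑ z ∈ J, ∑ u ∈ Us, Real.exp (-(α *
          (1 - 2 * η) ^ (((A \ insert a A0).filter (G.Adj u)).card) *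
          ((Fg G H V' (Function.update g a z) (insert a A0) u).card : ℝ))) ≤
          ∑ z ∈ J, ∑ u ∈ Us, Real.exp (-(α *
          (1 - 2 * η) ^ (((A \ A0).filter (G.Adj u)).card) *
          ((Fg G H V' g A0 u).card : ℝ))) := by
        rw [Finset.sum_comm, Finset.sum_comm (s := J)]
        apply Finset.sum_le_sum
        intro u _
        set F := Fg G H V' g A0 u with hF
        by_cases hadj : G.Adj u a
        · -- adjacent
          have hrr : ((A \ A0).filter (G.Adj u)).card =
              ((A \ insert a A0).filter (G.Adj u)).card + 1 := by
            have h1 : (A \ A0).filter (G.Adj u) =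
                insert a ((A \ insert a A0).filter (G.Adj u)) := by
              ext b
              simp only [Finset.mem_filter, Finset.mem_sdiff, Finset.mem_insert]
              constructor
              · rintro ⟨⟨h1, h2⟩, h3⟩
                by_cases hb : b = a
                · left; exact hb
                · right
                  refine ⟨⟨h1, ?_⟩, h3⟩
                  push Not
                  exact ⟨hb, h2⟩
              · rintro (h1 | ⟨⟨h1, h2⟩, h3⟩)
                · subst h1
                  exact ⟨⟨haA, ha⟩, hadj⟩
                · push Not at h2
                  exact ⟨⟨h1, h2.2⟩, h3⟩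
            rw [h1, Finset.card_insert_of_notMem]
            simp
          set r := ((A \ insert a A0).filter (G.Adj u)).card with hrdef
          rw [hrr]
          set α' := α * (1 - 2 * η) ^ r with hα'
          have hα'0 : 0 ≤ α' := by positivity
          have hα'1 : α' ≤ α := by
            calc α' ≤ α * 1 := mul_le_mul_of_nonneg_left (pow_le_one₀ hr0 hr1) hα
              _ = α := mul_one _
          have hcard : ∀ z ∈ J, ((Fg G H V' (Function.update g a z) (insert a A0) u).card : ℝ) =
              (F.card : ℝ) - ((F.filter (H.Adj z)).card : ℝ) := by
            intro z _
            have h1 : Fg G H V' (Function.update g a z) (insert a A0) u =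
                F.filter (fun x => ¬ H.Adj z x) := by
              ext x
              simp only [Fg, hF, Finset.mem_filter, Finset.mem_insert]
              constructor
              · rintro ⟨h1, h2⟩
                refine ⟨⟨h1, ?_⟩, ?_⟩
                · intro b hb hub
                  have hne : b ≠ a := fun h => ha (h ▸ hb)
                  have := h2 b (Or.inr hb) hub
                  rwa [Function.update_of_ne hne] at this
                · have := h2 a (Or.inl rfl) hadj
                  rwa [Function.update_self] at this
              · rintro ⟨⟨h1, h2⟩, h3⟩
                refine ⟨h1, ?_⟩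
                intro b hb hub
                by_cases hne : b = a
                · subst hne
                  rw [Function.update_self]
                  exact h3
                · rw [Function.update_of_ne hne]
                  exact h2 b (hb.resolve_left hne) hub
            rw [h1]
            have h2 := Finset.card_filter_add_card_filter_not (s := F) (fun x => H.Adj z x)
            have h3 : ((F.filter (fun x => H.Adj z x)).card : ℝ) +
                ((F.filter (fun x => ¬ H.Adj z x)).card : ℝ) = (F.card : ℝ) := by
              exact_mod_cast h2
            linarith
          have hsumdeg : ∑ z ∈ J, ((F.filter (H.Adj z)).card : ℝ) ≤ η * J.card * F.card := by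
            have h1 : ∑ z ∈ J, ((F.filter (H.Adj z)).card : ℝ) =
                ∑ x ∈ F, ((J.filter (H.Adj x)).card : ℝ) := by
              simp_rw [Finset.natCast_card_filter]
              rw [Finset.sum_comm]
              apply Finset.sum_congr rfl
              intro x _
              apply Finset.sum_congr rfl
              intro z _
              rw [H.adj_comm]
            rw [h1]
            calc ∑ x ∈ F, ((J.filter (H.Adj x)).card : ℝ) ≤ ∑ x ∈ F, η * J.card := by
                  apply Finset.sum_le_sum
                  intro x hx
                  have hxV : x ∈ V' := (Finset.mem_filter.mp hx).1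
                  have h2 : ((J.filter (H.Adj x)).card : ℝ) ≤ ((I.filter (H.Adj x)).card : ℝ) := by
                    exact_mod_cast Finset.card_le_card
                      (Finset.filter_subset_filter _ Finset.sdiff_subset)
                  have h3 := hd x hxV
                  nlinarith
              _ = η * J.card * F.card := by
                  rw [Finset.sum_const, nsmul_eq_mul]; ring
          calc ∑ z ∈ J, Real.exp (-(α' *
                ((Fg G H V' (Function.update g a z) (insert a A0) u).card : ℝ)))
              ≤ ∑ z ∈ J, Real.exp (-(α' * F.card)) *
                  (1 + 2 * (α' * ((F.filter (H.Adj z)).card : ℝ))) := by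
                apply Finset.sum_le_sum
                intro z hz
                rw [hcard z hz]
                have e1 : -(α' * ((F.card : ℝ) - ((F.filter (H.Adj z)).card : ℝ))) =
                    -(α' * F.card) + α' * ((F.filter (H.Adj z)).card : ℝ) := by ring
                rw [e1, Real.exp_add]
                apply mul_le_mul_of_nonneg_left _ (Real.exp_pos _).le
                apply exp_le_one_add_two_mul (by positivity)
                have hzI : z ∈ I := (Finset.mem_sdiff.mp hz).1
                refine le_trans ?_ (hs z hzI)
                apply mul_le_mul hα'1 _ (Nat.cast_nonneg _) hα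
                exact_mod_cast Finset.card_le_card
                  (Finset.filter_subset_filter _ (Finset.filter_subset _ _))
            _ = Real.exp (-(α' * F.card)) *
                  (J.card + 2 * α' * ∑ z ∈ J, ((F.filter (H.Adj z)).card : ℝ)) := by
                rw [← Finset.mul_sum, Finset.sum_add_distrib, Finset.sum_const, nsmul_eq_mul,
                  Finset.mul_sum]
                congr 2
                · ring
                · apply Finset.sum_congr rfl
                  intro z _
                  ring
            _ ≤ Real.exp (-(α' * F.card)) * (J.card * (1 + 2 * α' * η * F.card)) := by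
                apply mul_le_mul_of_nonneg_left _ (Real.exp_pos _).le
                nlinarith [mul_le_mul_of_nonneg_left hsumdeg hα'0]
            _ ≤ Real.exp (-(α' * F.card)) * (J.card * Real.exp (2 * α' * η * F.card)) := by
                apply mul_le_mul_of_nonneg_left _ (Real.exp_pos _).le
                apply mul_le_mul_of_nonneg_left _ (Nat.cast_nonneg _)
                rw [add_comm]
                exact Real.add_one_le_exp _
            _ = ∑ z ∈ J, Real.exp (-(α * (1 - 2 * η) ^ (r + 1) * F.card)) := by
                rw [Finset.sum_const, nsmul_eq_mul]
                have e2 : -(α * (1 - 2 * η) ^ (r + 1) * (F.card : ℝ)) =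
                    -(α' * F.card) + 2 * α' * η * F.card := by
                  rw [hα', pow_succ]; ring
                rw [e2, Real.exp_add]
                ring
        · -- not adjacent
          apply Finset.sum_le_sum
          intro z _
          apply le_of_eq
          have h1 : (A \ insert a A0).filter (G.Adj u) = (A \ A0).filter (G.Adj u) := by
            ext b
            simp only [Finset.mem_filter, Finset.mem_sdiff, Finset.mem_insert]
            constructor
            · rintro ⟨⟨h1, h2⟩, h3⟩
              push Not at h2
              exact ⟨⟨h1, h2.2⟩, h3⟩
            · rintro ⟨⟨h1, h2⟩, h3⟩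
              refine ⟨⟨h1, ?_⟩, h3⟩
              push Not
              refine ⟨?_, h2⟩
              intro hb
              exact hadj (hb ▸ h3)
          have h2 : Fg G H V' (Function.update g a z) (insert a A0) u = F := by
            ext x
            simp only [Fg, hF, Finset.mem_filter, Finset.mem_insert]
            constructor
            · rintro ⟨h1, h2⟩
              refine ⟨h1, ?_⟩
              intro b hb hub
              have hne : b ≠ a := fun h => ha (h ▸ hb)
              have := h2 b (Or.inr hb) hub
              rwa [Function.update_of_ne hne] at this
            · rintro ⟨h1, h2⟩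
              refine ⟨h1, ?_⟩
              intro b hb hub
              have hne : b ≠ a := fun h => hadj (h ▸ hub)
              rw [Function.update_of_ne hne]
              exact h2 b (hb.resolve_left hne) hub
          rw [h1, h2]
      obtain ⟨z, hzJ, hz⟩ := Finset.exists_le_of_sum_le hJne havg
      refine ⟨Function.update g a z, ?_, ?_, le_trans hz hgs⟩
      · intro b hb
        by_cases hba : b = a
        · subst hba
          rw [Function.update_self]
          exact (Finset.mem_sdiff.mp hzJ).1
        · rw [Function.update_of_ne hba]
          exact hgI b ((Finset.mem_insert.mp hb).resolve_left hba)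
      · intro b hb b' hb' hbb
        rw [Finset.mem_coe, Finset.mem_insert] at hb hb'
        have hznot : ∀ b ∈ A0, g b ≠ z := by
          intro b hb h
          exact (Finset.mem_sdiff.mp hzJ).2 (Finset.mem_image.mpr ⟨b, hb, h⟩)
        by_cases hba : b = a
        · by_cases hba' : b' = a
          · rw [hba, hba']
          · exfalso
            subst hba
            rw [Function.update_self, Function.update_of_ne hba'] at hbb
            exact hznot b' (hb'.resolve_left hba') hbb.symm
        · by_cases hba' : b' = a
          · exfalso
            subst hba'
            rw [Function.update_self, Function.update_of_ne hba] at hbb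
            exact hznot b (hb.resolve_left hba) hbb
          · rw [Function.update_of_ne hba, Function.update_of_ne hba'] at hbb
            exact hginj (hb.resolve_left hba) (hb'.resolve_left hba') hbb
  obtain ⟨g, h1, h2, h3⟩ := main A (Finset.Subset.refl A)
  refine ⟨g, h1, h2, ?_⟩
  simpa using h3

end Pool.Agent.TriRamsey
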